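import Pool.Agent.Lib.MP_6d8312_an.Mg.G001

/-! # Combinatorial definitions -/

set_option autoImplicit false

noncomputable section

namespace Pool.Agent.Lib.MP_6d8312_an

/-- The family `(τ i)_{i ∈ J}` is dissociated: no nontrivial relation with coefficients in
`{-2, ..., 2}`. -/
def DissF {m : ℕ} (τ : Fin m → ℤ) (J : Finset (Fin m)) : Prop :=
  ∀ η : Fin m → ℤ, (∀ i ∈ J, |η i| ≤ 2) → ∑ i ∈ J, η i * τ i = 0 → ∀ i ∈ J, η i = 0

open Classical in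
/-- The maximal size of a dissociated subfamily. -/
def dimF {m : ℕ} (τ : Fin m → ℤ) : ℕ :=
  (Finset.univ.filter (fun J : Finset (Fin m) => DissF τ J)).sup Finset.card

/-- The integers `l` such that `l` or `2 l` is a combination of elements of `D` with coefficients in
`{-2, ..., 2}`. -/
def SpanD (D : Finset ℤ) : Set ℤ :=
  {l | ∃ c : ℤ, (c = 1 ∨ c = 2) ∧ ∃ η : ℤ → ℤ, (∀ d ∈ D, |η d| ≤ 2) ∧
    c * l = ∑ d ∈ D, η d * d}

/-- The weights. -/
def wt {K : ℕ} (t : Fin K → ℝ) (l : ℤ) : ℂ :=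
  ∏ j, (1 - Complex.I * (Real.cos (2 * Real.pi * (l * t j)) : ℝ))

/-- The real function whose exponential has a large norm. -/
def vt {K : ℕ} (t : Fin K → ℝ) (l : ℤ) : ℝ :=
  ∑ j, (1 / 2) * Real.cos (2 * Real.pi * (l * t j))

/-- The set of differences of `q`-fold sums. -/
def Sums (A : Finset ℤ) (q : ℕ) : Finset ℤ :=
  ((Fintype.piFinset (fun _ : Fin q => A)) ×ˢ (Fintype.piFinset (fun _ : Fin q => A))).image
    (fun p => ∑ i, p.1 i - ∑ i, p.2 i)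

/-- A nonzero multiple of `A` is contained in a mesh. -/
def Ctrl (A : Finset ℤ) (s N : ℕ) : Prop :=
  ∃ (c : ℤ) (ρ : Fin s → ℤ), c ≠ 0 ∧ ∀ l ∈ A, c * l ∈ Mesh ρ N

/-- Some subset of `A` carries a function of norm at most `K / 2` whose exponential has norm at
least `(1/2) (14/13)^K`. -/
def Succ (A : Finset ℤ) (K : ℕ) : Prop :=
  ∃ A' ⊆ A, ∃ v : ℤ → ℝ, RTP (K / 2) v ∧ ∃ w : ℤ → ℂ, (∀ θ : ℝ, ‖W A' w θ‖ ≤ 1) ∧
      (1 / 2) * (14 / 13 : ℝ) ^ K ≤ ‖∑ l ∈ A', w l * Complex.exp (Complex.I * v l)‖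

end Pool.Agent.Lib.MP_6d8312_an
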