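import Pool.Agent.Lib.MP_6d8312_an.Mg.G001

/-! # Continuity near zero -/

set_option autoImplicit false

noncomputable section

namespace Pool.Agent.Lib.MP_6d8312_an

theorem exists_large_sum {Λ : Set ℤ} (h : Growth Λ) (R : ℕ) (M : ℝ) :
    ∃ A B : Finset ℤ, B ⊆ A ∧ (∀ n ∈ A, n ∈ Λ ∧ (R : ℤ) < |n|) ∧
      ∃ w : ℤ → ℂ, (∀ θ : ℝ, ‖W A w θ‖ ≤ 1) ∧ M ≤ ‖∑ l ∈ B, w l‖ := by
  classical
  obtain ⟨K₀, hK₀⟩ := pow_unbounded_of_one_lt (8 * M) (by norm_num : (1 : ℝ) < 14 / 13)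
  obtain ⟨K, hK, A, hA, v, _, w, hw, hbig⟩ := h R K₀
  by_contra hcon
  have hsmall : ∀ B : Finset ℤ, B ⊆ A → ‖∑ l ∈ B, w l‖ < M := by
    intro B hB
    by_contra h1
    push Not at h1
    exact hcon ⟨A, B, hB, hA, w, hw, h1⟩
  have hpow : (14 / 13 : ℝ) ^ K₀ ≤ (14 / 13 : ℝ) ^ K := pow_le_pow_right₀ (by norm_num) hK
  have hsum : ‖∑ l ∈ A, w l * Complex.exp (Complex.I * v l)‖ ≤
      ∑ l ∈ A, |(w l).re| + ∑ l ∈ A, |(w l).im| := by
    rw [← Finset.sum_add_distrib]
    refine (norm_sum_le _ _).trans (Finset.sum_le_sum fun l _ => ?_)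
    rw [norm_mul, mul_comm Complex.I, Complex.norm_exp_ofReal_mul_I, mul_one]
    exact Complex.norm_le_abs_re_add_abs_im _
  have hre : ∑ l ∈ A, |(w l).re| ≤ ‖∑ l ∈ A.filter (fun l => 0 ≤ (w l).re), w l‖ +
      ‖∑ l ∈ A.filter (fun l => ¬ 0 ≤ (w l).re), w l‖ := by
    rw [← Finset.sum_filter_add_sum_filter_not A (fun l => 0 ≤ (w l).re) (fun l => |(w l).re|)]
    apply add_le_add
    · calc ∑ l ∈ A.filter (fun l => 0 ≤ (w l).re), |(w l).re|
          = (∑ l ∈ A.filter (fun l => 0 ≤ (w l).re), w l).re := by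
            rw [Complex.re_sum]
            exact Finset.sum_congr rfl fun l hl => abs_of_nonneg (Finset.mem_filter.1 hl).2
        _ ≤ _ := (le_abs_self _).trans (Complex.abs_re_le_norm _)
    · calc ∑ l ∈ A.filter (fun l => ¬ 0 ≤ (w l).re), |(w l).re|
          = -(∑ l ∈ A.filter (fun l => ¬ 0 ≤ (w l).re), w l).re := by
            rw [Complex.re_sum, ← Finset.sum_neg_distrib]
            exact Finset.sum_congr rfl fun l hl =>
              abs_of_neg (not_le.1 (Finset.mem_filter.1 hl).2)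
        _ ≤ _ := (neg_le_abs _).trans (Complex.abs_re_le_norm _)
  have him : ∑ l ∈ A, |(w l).im| ≤ ‖∑ l ∈ A.filter (fun l => 0 ≤ (w l).im), w l‖ +
      ‖∑ l ∈ A.filter (fun l => ¬ 0 ≤ (w l).im), w l‖ := by
    rw [← Finset.sum_filter_add_sum_filter_not A (fun l => 0 ≤ (w l).im) (fun l => |(w l).im|)]
    apply add_le_add
    · calc ∑ l ∈ A.filter (fun l => 0 ≤ (w l).im), |(w l).im|
          = (∑ l ∈ A.filter (fun l => 0 ≤ (w l).im), w l).im := by
            rw [Complex.im_sum]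
            exact Finset.sum_congr rfl fun l hl => abs_of_nonneg (Finset.mem_filter.1 hl).2
        _ ≤ _ := (le_abs_self _).trans (Complex.abs_im_le_norm _)
    · calc ∑ l ∈ A.filter (fun l => ¬ 0 ≤ (w l).im), |(w l).im|
          = -(∑ l ∈ A.filter (fun l => ¬ 0 ≤ (w l).im), w l).im := by
            rw [Complex.im_sum, ← Finset.sum_neg_distrib]
            exact Finset.sum_congr rfl fun l hl =>
              abs_of_neg (not_le.1 (Finset.mem_filter.1 hl).2)
        _ ≤ _ := (neg_le_abs _).trans (Complex.abs_im_le_norm _)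
  have h1 := hsmall _ (Finset.filter_subset (fun l => 0 ≤ (w l).re) A)
  have h2 := hsmall _ (Finset.filter_subset (fun l => ¬ 0 ≤ (w l).re) A)
  have h3 := hsmall _ (Finset.filter_subset (fun l => 0 ≤ (w l).im) A)
  have h4 := hsmall _ (Finset.filter_subset (fun l => ¬ 0 ≤ (w l).im) A)
  linarith

theorem continuousAt_of_bdd {Λ : Set ℤ} {F : ℝ → ℝ} {R : ℕ} {r C : ℝ} (hG : Growth Λ)
    (hB : Bdd Λ F R r C) (x : ℝ) (hx : |x| < r) : ContinuousAt F x := by
  classical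
  rw [Metric.continuousAt_iff]
  intro ε hε
  obtain ⟨A, B, hBA, hA, w, hw, hbig⟩ := exists_large_sum hG R ((|C| + |F x| + 1) / ε)
  have hpos : 0 < r - |x| := by linarith
  refine ⟨(r - |x|) / (B.card + 1), by positivity, fun y hy => ?_⟩
  rw [Real.dist_eq] at hy ⊢
  have hind : ∀ b : ℤ, ∃ U : ℤ → ℝ, RTP 1 U ∧ ∀ n ∈ A, U n = if n = b then 1 else 0 :=
    fun b => RTP.exists_indicator A b
  choose ind hind1 hind2 using hind
  have hU : RTP r (fun n => x + (y - x) * ∑ b ∈ B, ind b n) := by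
    have h1 : RTP (∑ _b ∈ B, (1 : ℝ)) (fun n => ∑ b ∈ B, ind b n) :=
      RTP.sum B (fun _ => 1) ind fun b _ => hind1 b
    have h2 := RTP.add (RTP.const x) (RTP.smul (y - x) h1)
    apply RTP.mono h2
    rw [Finset.sum_const, nsmul_eq_mul, mul_one]
    have h3 : |y - x| * B.card ≤ r - |x| := by
      calc |y - x| * B.card ≤ |y - x| * (B.card + 1) :=
            mul_le_mul_of_nonneg_left (by linarith) (abs_nonneg _)
        _ ≤ (r - |x|) / (B.card + 1) * (B.card + 1) :=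
            mul_le_mul_of_nonneg_right hy.le (by positivity)
        _ = r - |x| := by field_simp
    linarith
  have hval : ∀ n ∈ A, x + (y - x) * ∑ b ∈ B, ind b n = if n ∈ B then y else x := by
    intro n hn
    have h1 : ∑ b ∈ B, ind b n = if n ∈ B then 1 else 0 := by
      rw [Finset.sum_congr rfl fun b _ => hind2 b n hn]
      simp
    rw [h1]
    split <;> ring
  have hb := hB A hA _ hU w hw
  have hsum : ∑ l ∈ A, w l * ((F (x + (y - x) * ∑ b ∈ B, ind b l) : ℝ) : ℂ) =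
      (F x : ℂ) * ∑ l ∈ A, w l + ((F y - F x : ℝ) : ℂ) * ∑ l ∈ B, w l := by
    have h1 : ∀ l ∈ A, w l * ((F (x + (y - x) * ∑ b ∈ B, ind b l) : ℝ) : ℂ) =
        (F x : ℂ) * w l + (if l ∈ B then ((F y - F x : ℝ) : ℂ) * w l else 0) := by
      intro l hl
      rw [hval l hl]
      split
      · push_cast
        ring
      · ring
    rw [Finset.sum_congr rfl h1, Finset.sum_add_distrib, ← Finset.mul_sum, ← Finset.sum_filter,
      Finset.filter_mem_eq_inter, Finset.inter_eq_right.2 hBA, ← Finset.mul_sum]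
  rw [hsum] at hb
  have hW0 : ‖∑ l ∈ A, w l‖ ≤ 1 := by
    have h1 := hw 0
    unfold W at h1
    simpa [e_zero] using h1
  have h5 : ‖((F y - F x : ℝ) : ℂ) * ∑ l ∈ B, w l‖ ≤ C + |F x| := by
    calc ‖((F y - F x : ℝ) : ℂ) * ∑ l ∈ B, w l‖
        = ‖((F x : ℂ) * ∑ l ∈ A, w l + ((F y - F x : ℝ) : ℂ) * ∑ l ∈ B, w l) -
            (F x : ℂ) * ∑ l ∈ A, w l‖ := by
          congr 1
          ring
      _ ≤ ‖(F x : ℂ) * ∑ l ∈ A, w l + ((F y - F x : ℝ) : ℂ) * ∑ l ∈ B, w l‖ +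
            ‖(F x : ℂ) * ∑ l ∈ A, w l‖ := norm_sub_le _ _
      _ ≤ C + |F x| * 1 := by
          apply add_le_add hb
          rw [norm_mul, Complex.norm_real, Real.norm_eq_abs]
          exact mul_le_mul_of_nonneg_left hW0 (abs_nonneg _)
      _ = C + |F x| := by ring
  rw [norm_mul, Complex.norm_real, Real.norm_eq_abs] at h5
  have h6 : |F y - F x| * ((|C| + |F x| + 1) / ε) ≤ C + |F x| :=
    (mul_le_mul_of_nonneg_left hbig (abs_nonneg _)).trans h5
  have h7 : |F y - F x| * ((|C| + |F x| + 1) / ε) < |C| + |F x| + 1 := by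
    have := le_abs_self C
    linarith
  have h8 : 0 < |C| + |F x| + 1 := by positivity
  rw [← mul_div_assoc, div_lt_iff₀ hε, mul_comm] at h7
  exact lt_of_mul_lt_mul_left h7 h8.le

end Pool.Agent.Lib.MP_6d8312_an
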