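import Pool.Agent.Lib.MP_6d8312_an.CDefs

/-! # Meshes -/

set_option autoImplicit false

noncomputable section

namespace Pool.Agent.Lib.MP_6d8312_an

open Classical in
theorem Control_mesh_eq {s : ℕ} (ρ : Fin s → ℤ) (N : ℕ) :
    Mesh ρ N = (((Fintype.piFinset (fun _ : Fin s => Finset.Icc (-(N : ℤ)) N)).image
      (fun m => ∑ i, m i * ρ i) : Finset ℤ) : Set ℤ) := by
  ext l
  simp only [Mesh, Set.mem_ofPred_eq, Finset.coe_image, Set.mem_image, Finset.mem_coe,
    Fintype.mem_piFinset, Finset.mem_Icc]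
  constructor
  · rintro ⟨m, hm, rfl⟩
    exact ⟨m, fun i => abs_le.1 (hm i), rfl⟩
  · rintro ⟨m, hm, rfl⟩
    exact ⟨m, fun i => abs_le.2 (hm i), rfl⟩

theorem mesh_finite {s : ℕ} (ρ : Fin s → ℤ) (N : ℕ) : (Mesh ρ N).Finite := by
  rw [Control_mesh_eq]
  exact Finset.finite_toSet _

theorem mesh_card {s : ℕ} (ρ : Fin s → ℤ) (N : ℕ) : (Mesh ρ N).ncard ≤ (2 * N + 1) ^ s := by
  classical
  rw [Control_mesh_eq, Set.ncard_coe_finset]
  refine Finset.card_image_le.trans ?_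
  rw [Fintype.card_piFinset_const, Int.card_Icc]
  apply le_of_eq
  congr 1
  omega

theorem Ctrl.card_le {A : Finset ℤ} {s N : ℕ} (h : Ctrl A s N) : A.card ≤ (2 * N + 1) ^ s := by
  classical
  obtain ⟨c, ρ, hc, hA⟩ := h
  refine le_trans ?_ (mesh_card ρ N)
  have h1 : (A.image (fun l => c * l)).card = A.card :=
    Finset.card_image_of_injective _ (fun a b hab => mul_left_cancel₀ hc hab)
  rw [← h1, ← Set.ncard_coe_finset]
  apply Set.ncard_le_ncard _ (mesh_finite ρ N)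
  intro l hl
  obtain ⟨a, ha, rfl⟩ := Finset.mem_image.1 (Finset.mem_coe.1 hl)
  exact hA a ha

theorem Ctrl.card_sums {A : Finset ℤ} {s N : ℕ} (h : Ctrl A s N) (q : ℕ) :
    (Sums A q).card ≤ (4 * q * N + 1) ^ s := by
  classical
  obtain ⟨c, ρ, hc, hA⟩ := h
  have h1 : Ctrl (Sums A q) s (2 * q * N) := by
    refine ⟨c, ρ, hc, ?_⟩
    intro l hl
    obtain ⟨p, hp, rfl⟩ := Finset.mem_image.1 hl
    obtain ⟨hp1, hp2⟩ := Finset.mem_product.1 hp
    rw [Fintype.mem_piFinset] at hp1 hp2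
    choose m1 hm1 hm1' using fun i => hA (p.1 i) (hp1 i)
    choose m2 hm2 hm2' using fun i => hA (p.2 i) (hp2 i)
    refine ⟨fun k => ∑ i, m1 i k - ∑ i, m2 i k, ?_, ?_⟩
    · intro k
      have e1 : |∑ i, m1 i k| ≤ q * N := by
        refine (Finset.abs_sum_le_sum_abs _ _).trans ?_
        refine (Finset.sum_le_sum (fun i _ => hm1 i k)).trans ?_
        simp
      have e2 : |∑ i, m2 i k| ≤ q * N := by
        refine (Finset.abs_sum_le_sum_abs _ _).trans ?_
        refine (Finset.sum_le_sum (fun i _ => hm2 i k)).trans ?_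
        simp
      have e3 := abs_sub (∑ i, m1 i k) (∑ i, m2 i k)
      push_cast
      linarith
    · rw [mul_sub, Finset.mul_sum, Finset.mul_sum]
      simp only [hm1', hm2']
      rw [Finset.sum_comm, Finset.sum_comm (s := Finset.univ) (t := Finset.univ)
        (f := fun i k => m2 i k * ρ k), ← Finset.sum_sub_distrib]
      apply Finset.sum_congr rfl
      intro k _
      rw [sub_mul, Finset.sum_mul, Finset.sum_mul]
  have h2 := h1.card_le
  have h3 : 2 * (2 * q * N) + 1 = 4 * q * N + 1 := by ring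
  rwa [h3] at h2

theorem Ctrl.subset {A B : Finset ℤ} {s N : ℕ} (h : Ctrl A s N) (hB : B ⊆ A) : Ctrl B s N := by
  obtain ⟨c, ρ, hc, hA⟩ := h
  exact ⟨c, ρ, hc, fun l hl => hA l (hB hl)⟩

theorem ctrl_span (D A : Finset ℤ) (s : ℕ) (hD : D.card ≤ s) (hA : (A : Set ℤ) ⊆ SpanD D) :
    Ctrl A s 4 := by
  classical
  obtain ⟨φ⟩ := Function.Embedding.nonempty_of_card_le (α := D) (β := Fin s)
    (by simpa using hD)
  let sel : (ℤ → ℤ) → Fin s → ℤ := fun f i => if h : ∃ d : D, φ d = i then f h.choose else 0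
  have hsel : ∀ (f : ℤ → ℤ) (d : D), sel f (φ d) = f d := by
    intro f d
    have h : ∃ d' : D, φ d' = φ d := ⟨d, rfl⟩
    have h1 : sel f (φ d) = f h.choose := dif_pos h
    rw [h1, φ.injective h.choose_spec]
  have hsel0 : ∀ (f : ℤ → ℤ) (i : Fin s), i ∉ Set.range φ → sel f i = 0 := by
    intro f i hi
    exact dif_neg (fun ⟨d, hd⟩ => hi ⟨d, hd⟩)
  refine ⟨2, sel id, two_ne_zero, ?_⟩
  intro l hl
  obtain ⟨c, hc, η, hη, hsum⟩ := hA (Finset.mem_coe.2 hl)
  obtain ⟨η', hη', hsum'⟩ : ∃ η' : ℤ → ℤ, (∀ d ∈ D, |η' d| ≤ 4) ∧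
      2 * l = ∑ d ∈ D, η' d * d := by
    rcases hc with rfl | rfl
    · refine ⟨fun d => 2 * η d, fun d hd => ?_, ?_⟩
      · rw [abs_mul]
        have := hη d hd
        norm_num
        linarith
      · rw [one_mul] at hsum
        rw [hsum, Finset.mul_sum]
        exact Finset.sum_congr rfl (fun d _ => by ring)
    · exact ⟨η, fun d hd => (hη d hd).trans (by norm_num), hsum⟩
  refine ⟨sel η', ?_, ?_⟩
  · intro i
    by_cases hi : i ∈ Set.range φ
    · obtain ⟨d, rfl⟩ := hi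
      rw [hsel]
      exact_mod_cast hη' d d.2
    · rw [hsel0 _ _ hi]; simp
  · rw [hsum', ← Finset.sum_coe_sort D]
    apply Fintype.sum_of_injective φ φ.injective
    · intro i hi
      rw [hsel0 _ _ hi, zero_mul]
    · intro d
      rw [hsel, hsel]
      rfl

end Pool.Agent.Lib.MP_6d8312_an
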