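import Pool.Agent.Lib.MP_6d8312_an.Mg.G012

/-! # Exponential decay of the Fourier coefficients of `F (b sin x)` -/

set_option autoImplicit false

noncomputable section

namespace Pool.Agent.Lib.MP_6d8312_an

theorem cf_decay {Λ : Set ℤ} {F : ℝ → ℝ} {R : ℕ} {s b C : ℝ} (hG : Growth Λ) (hs : 0 < s)
    (hc : Continuous (fun x : ℝ => F (b * Real.sin x))) (hB : SinBdd Λ F R s b C) :
    ∃ C' c : ℝ, 0 < c ∧ ∀ m : ℤ, ‖cf F b m‖ ≤ C' * Real.exp (-c * |(m : ℝ)|) := by
  have hC0 : 0 ≤ C := by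
    obtain ⟨K, _, A, hA, v, _, w, hw, _⟩ := hG R 0
    have h0 : RTP s (fun _ : ℤ => (0 : ℝ)) := by
      have := RTP.const 0
      rw [abs_zero] at this
      exact this.mono hs.le
    exact (norm_nonneg _).trans (hB A hA (fun _ => 0) h0 w hw 0)
  set L : ℝ := Real.log (14 / 13) with hL
  have hL0 : 0 < L := Real.log_pos (by norm_num)
  refine ⟨2 * C + ‖cf F b 0‖, s * L, by positivity, ?_⟩
  intro m
  rcases eq_or_ne m 0 with hm | hm
  · subst hm
    simp only [Int.cast_zero, abs_zero, mul_zero, Real.exp_zero, mul_one]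
    linarith [norm_nonneg (cf F b 0)]
  -- the main case
  set y : ℝ := ‖cf F b m‖ with hy
  rcases (norm_nonneg (cf F b m)).eq_or_lt with hy0 | hy0
  · rw [← hy] at hy0
    rw [← hy0]
    have := norm_nonneg (cf F b 0)
    positivity
  rw [← hy] at hy0
  have hm1 : (1 : ℝ) ≤ |(m : ℝ)| := by
    have := Int.one_le_abs hm
    exact_mod_cast this
  set a : ℝ := |(m : ℝ)| with ha
  have ha0 : 0 < a := by linarith
  obtain ⟨K, hK, A, hA, v, hv, w, hw, hlow⟩ := hG R ⌈2 * a * s⌉₊
  have hKs : 2 * a * s ≤ K := (Nat.le_ceil _).trans (by exact_mod_cast hK)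
  set M : ℕ := ⌈(K : ℝ) / (2 * a * s)⌉₊ with hM
  have h2as : 0 < 2 * a * s := by positivity
  have hM1 : (K : ℝ) / (2 * a * s) ≤ M := Nat.le_ceil _
  have hM2 : (M : ℝ) ≤ K / (a * s) := by
    have h1 : (M : ℝ) < K / (2 * a * s) + 1 := Nat.ceil_lt_add_one (by positivity)
    have h2 : 1 ≤ (K : ℝ) / (2 * a * s) := by rw [le_div_iff₀ h2as]; linarith
    have h3 : (K : ℝ) / (a * s) = K / (2 * a * s) + K / (2 * a * s) := by
      field_simp; ring
    rw [h3]; linarith
  have hMpos : (0 : ℝ) < M := by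
    have h2 : 1 ≤ (K : ℝ) / (2 * a * s) := by rw [le_div_iff₀ h2as]; linarith
    linarith
  have hmR : (m : ℝ) ≠ 0 := by exact_mod_cast hm
  set U : ℤ → ℝ := fun n => (1 / (m * M)) * v n with hU
  have hUs : RTP s U := by
    refine (RTP.smul (1 / (m * M)) hv).mono ?_
    rw [abs_div, abs_one, abs_mul, abs_of_pos hMpos, ← ha]
    rw [div_mul_eq_mul_div, div_le_iff₀ (by positivity)]
    rw [div_le_iff₀ h2as] at hM1
    nlinarith
  have hB2 : ∀ w' : ℤ → ℂ, (∀ θ : ℝ, ‖W A w' θ‖ ≤ 1) →
      ‖∑ l ∈ A, w' l * Complex.exp (m * U l * Complex.I)‖ ≤ C / y := by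
    intro w' hw'
    have := cf_bound (w := w') hc (fun x => hB A hA U hUs w' hw' x) m
    rw [le_div_iff₀ hy0, mul_comm]
    exact this
  have h3 := mult_iter A (fun l => Complex.exp (m * U l * Complex.I)) (C / y) (by positivity)
    hB2 M w hw
  have h4 : ∑ l ∈ A, w l * Complex.exp (m * U l * Complex.I) ^ M
      = ∑ l ∈ A, w l * Complex.exp (Complex.I * v l) := by
    refine Finset.sum_congr rfl fun l _ => ?_
    rw [← Complex.exp_nat_mul]
    congr 2
    simp only [hU]
    have hmC : (m : ℂ) ≠ 0 := by exact_mod_cast hm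
    have hMC : (M : ℂ) ≠ 0 := by
      have : (M : ℝ) ≠ 0 := hMpos.ne'
      exact_mod_cast this
    push_cast
    field_simp
  rw [h4] at h3
  have h5 : (1 / 2) * (14 / 13 : ℝ) ^ K ≤ (C / y) ^ M := hlow.trans h3
  -- take logarithms
  have hCy : 0 < C / y := by
    by_contra hne
    have h0 : C / y = 0 := le_antisymm (not_lt.mp hne) (by positivity)
    rw [h0, zero_pow (by intro h; rw [h] at hMpos; simp at hMpos)] at h5
    have : (0 : ℝ) < (1 / 2) * (14 / 13 : ℝ) ^ K := by positivity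
    linarith
  have h6 : K * L - Real.log 2 ≤ M * Real.log (C / y) := by
    have h := Real.log_le_log (by positivity) h5
    rw [Real.log_mul (by norm_num) (by positivity), Real.log_pow, Real.log_pow, one_div,
      Real.log_inv] at h
    linarith
  have hlog2 : Real.log 2 ≤ M * Real.log 2 := by
    have h0 := Real.log_pos (show (1 : ℝ) < 2 by norm_num)
    have h1 : (1 : ℝ) ≤ M := by
      have : 0 < M := by exact_mod_cast hMpos
      exact_mod_cast this
    nlinarith
  have h7 : a * s * M * L ≤ K * L := by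
    rw [le_div_iff₀ (by positivity)] at hM2
    nlinarith
  have h8 : a * s * L ≤ Real.log (2 * (C / y)) := by
    rw [Real.log_mul (by norm_num) hCy.ne']
    have : M * (a * s * L) ≤ M * (Real.log 2 + Real.log (C / y)) := by nlinarith
    exact le_of_mul_le_mul_left this hMpos
  have h9 : Real.exp (a * s * L) ≤ 2 * (C / y) := by
    rw [← Real.le_log_iff_exp_le (by positivity)]
    exact h8
  have h10 : y ≤ 2 * C * Real.exp (-(s * L) * a) := by
    have e1 : -(s * L) * a = -(a * s * L) := by ring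
    rw [e1, Real.exp_neg, ← div_eq_mul_inv, le_div_iff₀ (Real.exp_pos _)]
    calc y * Real.exp (a * s * L) ≤ y * (2 * (C / y)) := by gcongr
      _ = 2 * C := by field_simp
  calc y ≤ 2 * C * Real.exp (-(s * L) * a) := h10
    _ ≤ (2 * C + ‖cf F b 0‖) * Real.exp (-(s * L) * a) := by
      gcongr
      linarith [norm_nonneg (cf F b 0)]

end Pool.Agent.Lib.MP_6d8312_an
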