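import Pool.Agent.Lib.MP_6d8312_an.CDefs

/-! # Counting tuples by their deficiency -/

set_option autoImplicit false

noncomputable section

namespace Pool.Agent.Lib.MP_6d8312_an

open Classical in
theorem Defic1_exists_max {m : ℕ} (τ : Fin m → ℤ) :
    ∃ J : Finset (Fin m), DissF τ J ∧ J.card = dimF τ := by
  have hne : (Finset.univ.filter (fun J : Finset (Fin m) => DissF τ J)).Nonempty := by
    refine ⟨∅, ?_⟩
    rw [Finset.mem_filter]
    refine ⟨Finset.mem_univ _, ?_⟩
    intro η _ _ i hi
    exact absurd hi (Finset.notMem_empty i)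
  obtain ⟨J, hJ, h⟩ := Finset.exists_mem_eq_sup _ hne Finset.card
  exact ⟨J, (Finset.mem_filter.1 hJ).2, h.symm⟩

open Classical in
theorem Defic1_le_dimF {m : ℕ} (τ : Fin m → ℤ) (J : Finset (Fin m)) (hJ : DissF τ J) :
    J.card ≤ dimF τ :=
  Finset.le_sup (f := Finset.card) (Finset.mem_filter.2 ⟨Finset.mem_univ J, hJ⟩)

open Classical in
theorem Defic1_injOn {m : ℕ} (τ : Fin m → ℤ) (J : Finset (Fin m)) (hJ : DissF τ J) :
    Set.InjOn τ J := by
  intro i hi j hj hij
  by_contra hne
  have h := hJ (fun k => if k = i then 1 else if k = j then -1 else 0) (by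
    intro k _
    split_ifs <;> simp) (by
    have h1 : ∀ k ∈ J, (if k = i then 1 else if k = j then -1 else 0 : ℤ) * τ k =
        (if k = i then τ k else 0) + (if k = j then -τ k else 0) := by
      intro k _
      by_cases h1 : k = i
      · subst h1
        simp [hne]
      · by_cases h2 : k = j
        · subst h2
          simp [Ne.symm hne]
        · simp [h1, h2]
    rw [Finset.sum_congr rfl h1, Finset.sum_add_distrib, Finset.sum_ite_eq', Finset.sum_ite_eq',
      if_pos (Finset.mem_coe.1 hi), if_pos (Finset.mem_coe.1 hj), hij]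
    ring) i hi
  simp at h

open Classical in
theorem Defic1_sum_last {m : ℕ} (τ : Fin m → ℤ) (l : ℤ) (J : Finset (Fin m))
    (η : Fin (m + 1) → ℤ) :
    ∑ i ∈ J.map Fin.castSuccEmb, η i * (Fin.snoc (α := fun _ => ℤ) τ l : Fin (m + 1) → ℤ) i =
      ∑ i ∈ J, η i.castSucc * τ i := by
  rw [Finset.sum_map]
  apply Finset.sum_congr rfl
  intro i _
  simp

open Classical in
/-- If `l` is not in the span of a maximal dissociated subfamily, the dimension increases. -/
theorem dimF_snoc {m : ℕ} (τ : Fin m → ℤ) : ∃ D : Finset ℤ, (D : Set ℤ) ⊆ Set.range τ ∧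
    D.card ≤ m ∧ ∀ l : ℤ, dimF τ ≤ dimF (Fin.snoc (α := fun _ => ℤ) τ l) ∧
      (l ∉ SpanD D → dimF τ + 1 ≤ dimF (Fin.snoc (α := fun _ => ℤ) τ l)) := by
  obtain ⟨J, hJ, hcard⟩ := Defic1_exists_max τ
  have hinj := Defic1_injOn τ J hJ
  refine ⟨J.image τ, ?_, ?_, ?_⟩
  · intro d hd
    obtain ⟨i, _, rfl⟩ := Finset.mem_image.1 (Finset.mem_coe.1 hd)
    exact ⟨i, rfl⟩
  · refine Finset.card_image_le.trans ?_
    have := Finset.card_le_univ J
    simpa using this
  intro l
  have hJ' : DissF (Fin.snoc (α := fun _ => ℤ) τ l : Fin (m + 1) → ℤ)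
      (J.map Fin.castSuccEmb) := by
    intro η hη hsum i hi
    rw [Defic1_sum_last] at hsum
    obtain ⟨j, hj, rfl⟩ := Finset.mem_map.1 hi
    exact hJ (fun i => η i.castSucc)
      (fun i hi => hη _ (Finset.mem_map.2 ⟨i, hi, rfl⟩)) hsum j hj
  constructor
  · rw [← hcard, ← Finset.card_map Fin.castSuccEmb]
    exact Defic1_le_dimF _ _ hJ'
  · intro hl
    have hlast : Fin.last m ∉ J.map Fin.castSuccEmb := by
      intro h
      obtain ⟨j, _, hj⟩ := Finset.mem_map.1 h
      exact (Fin.castSucc_lt_last j).ne hj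
    have hcard' : (insert (Fin.last m) (J.map Fin.castSuccEmb)).card = dimF τ + 1 := by
      rw [Finset.card_insert_of_notMem hlast, Finset.card_map, hcard]
    rw [← hcard']
    apply Defic1_le_dimF
    intro η hη hsum
    rw [Finset.sum_insert hlast, Defic1_sum_last, Fin.snoc_last] at hsum
    have hη' : ∀ i ∈ J, |η i.castSucc| ≤ 2 := fun i hi =>
      hη _ (Finset.mem_insert_of_mem (Finset.mem_map.2 ⟨i, hi, rfl⟩))
    have hc : η (Fin.last m) = 0 := by
      by_contra hc
      apply hl
      have habs := hη _ (Finset.mem_insert_self _ _)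
      -- sign
      obtain ⟨s, c', hs, hc', hsc⟩ : ∃ s c' : ℤ, (s = 1 ∨ s = -1) ∧ (c' = 1 ∨ c' = 2) ∧
          η (Fin.last m) = s * c' := by
        rw [abs_le] at habs
        obtain ⟨h1, h2⟩ := habs
        have h3 : η (Fin.last m) = -2 ∨ η (Fin.last m) = -1 ∨ η (Fin.last m) = 1 ∨
            η (Fin.last m) = 2 := by omega
        rcases h3 with h | h | h | h
        · exact ⟨-1, 2, Or.inr rfl, Or.inr rfl, by rw [h]; norm_num⟩
        · exact ⟨-1, 1, Or.inr rfl, Or.inl rfl, by rw [h]; norm_num⟩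
        · exact ⟨1, 1, Or.inl rfl, Or.inl rfl, by rw [h]; norm_num⟩
        · exact ⟨1, 2, Or.inl rfl, Or.inr rfl, by rw [h]; norm_num⟩
      let g : ℤ → ℤ := fun d => if h : ∃ i ∈ J, τ i = d then -s * η h.choose.castSucc else 0
      have hg : ∀ i ∈ J, g (τ i) = -s * η i.castSucc := by
        intro i hi
        have h : ∃ j ∈ J, τ j = τ i := ⟨i, hi, rfl⟩
        have h1 : g (τ i) = -s * η h.choose.castSucc := dif_pos h
        rw [h1, hinj h.choose_spec.1 hi h.choose_spec.2]
      have hsabs : |(-s : ℤ)| = 1 := by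
        rcases hs with rfl | rfl <;> simp
      refine ⟨c', hc', g, ?_, ?_⟩
      · intro d hd
        obtain ⟨i, hi, rfl⟩ := Finset.mem_image.1 hd
        rw [hg i hi, abs_mul, hsabs, one_mul]
        exact hη' i hi
      · rw [Finset.sum_image hinj]
        have h1 : ∑ i ∈ J, g (τ i) * τ i = -s * ∑ i ∈ J, η i.castSucc * τ i := by
          rw [Finset.mul_sum]
          apply Finset.sum_congr rfl
          intro i hi
          rw [hg i hi]; ring
        rw [h1]
        have h2 : ∑ i ∈ J, η i.castSucc * τ i = - (s * c' * l) := by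
          rw [hsc] at hsum
          linarith
        rw [h2]
        rcases hs with rfl | rfl <;> ring
    rw [hc, zero_mul, zero_add] at hsum
    have hJ0 := hJ (fun i => η i.castSucc) hη' hsum
    intro i hi
    rcases Finset.mem_insert.1 hi with rfl | hi
    · exact hc
    · obtain ⟨j, hj, rfl⟩ := Finset.mem_map.1 hi
      exact hJ0 j hj

open Classical in
theorem dimF_le {m : ℕ} (τ : Fin m → ℤ) : dimF τ ≤ m := by
  unfold dimF
  apply Finset.sup_le
  intro J _
  have := Finset.card_le_univ J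
  simpa using this

end Pool.Agent.Lib.MP_6d8312_an
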