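import Pool.Agent.Lib.MP_6d8312_an.Defic1

/-! # Summing over tuples -/

set_option autoImplicit false

noncomputable section

namespace Pool.Agent.Lib.MP_6d8312_an

theorem Defic2_snoc_sum (A : Finset ℤ) (m : ℕ) (F : (Fin (m + 1) → ℤ) → ℝ) :
    ∑ τ ∈ Fintype.piFinset (fun _ : Fin (m + 1) => A), F τ =
      ∑ τ ∈ Fintype.piFinset (fun _ : Fin m => A), ∑ l ∈ A,
        F (Fin.snoc (α := fun _ => ℤ) τ l) := by
  rw [← Finset.sum_product']
  symm
  apply Finset.sum_nbij' (fun p : (Fin m → ℤ) × ℤ => (Fin.snoc (α := fun _ => ℤ) p.1 p.2))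
    (fun τ => (fun i : Fin m => τ i.castSucc, τ (Fin.last m)))
  · rintro ⟨τ, l⟩ hp
    obtain ⟨h1, h2⟩ := Finset.mem_product.1 hp
    rw [Fintype.mem_piFinset] at h1 ⊢
    intro i
    induction i using Fin.lastCases with
    | last => simpa using h2
    | cast i => simpa using h1 i
  · intro τ hτ
    rw [Fintype.mem_piFinset] at hτ
    rw [Finset.mem_product, Fintype.mem_piFinset]
    exact ⟨fun i => hτ _, hτ _⟩
  · rintro ⟨τ, l⟩ _
    simp
  · intro τ _
    funext i
    induction i using Fin.lastCases with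
    | last => simp
    | cast i => simp
  · intro p _
    rfl

open Classical in
theorem deficiency_sum (A : Finset ℤ) (M g : ℕ) (X : ℝ) (hX : 1 ≤ X)
    (hg : ∀ D ⊆ A, D.card ≤ M → (A.filter (fun l => l ∈ SpanD D)).card ≤ g) (m : ℕ) (hm : m ≤ M) :
    ∑ τ ∈ Fintype.piFinset (fun _ : Fin m => A), X ^ (m - dimF τ) ≤
      ((A.card : ℝ) + X * g) ^ m := by
  have hX0 : 0 ≤ X := by linarith
  induction m with
  | zero =>
    rw [pow_zero]
    have h1 : ∀ τ ∈ Fintype.piFinset (fun _ : Fin 0 => A), X ^ (0 - dimF τ) = 1 := by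
      intro τ _
      rw [Nat.zero_sub, pow_zero]
    rw [Finset.sum_congr rfl h1]
    simp
  | succ m ih =>
    rw [Defic2_snoc_sum, pow_succ]
    have key : ∀ τ ∈ Fintype.piFinset (fun _ : Fin m => A),
        ∑ l ∈ A, X ^ (m + 1 - dimF (Fin.snoc (α := fun _ => ℤ) τ l)) ≤
          X ^ (m - dimF τ) * ((A.card : ℝ) + X * g) := by
      intro τ hτ
      obtain ⟨D, hD, hDc, hDl⟩ := dimF_snoc τ
      have hDA : D ⊆ A := by
        intro d hd
        obtain ⟨i, rfl⟩ := hD (Finset.mem_coe.2 hd)
        exact (Fintype.mem_piFinset.1 hτ) i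
      have hcard := hg D hDA (by omega)
      have hle := dimF_le τ
      have hterm : ∀ l ∈ A, X ^ (m + 1 - dimF (Fin.snoc (α := fun _ => ℤ) τ l)) ≤
          X ^ (m - dimF τ) + (if l ∈ SpanD D then X ^ (m - dimF τ) * X else 0) := by
        intro l _
        by_cases hl : l ∈ SpanD D
        · rw [if_pos hl]
          have h1 : X ^ (m + 1 - dimF (Fin.snoc (α := fun _ => ℤ) τ l)) ≤
              X ^ (m - dimF τ + 1) := by
            apply pow_le_pow_right₀ hX
            have := (hDl l).1
            omega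
          rw [pow_succ] at h1
          have : 0 ≤ X ^ (m - dimF τ) := by positivity
          linarith
        · rw [if_neg hl, add_zero]
          apply pow_le_pow_right₀ hX
          have := (hDl l).2 hl
          omega
      refine (Finset.sum_le_sum hterm).trans ?_
      rw [Finset.sum_add_distrib, Finset.sum_const, ← Finset.sum_filter, Finset.sum_const,
        nsmul_eq_mul, nsmul_eq_mul]
      have h2 : ((A.filter (fun l => l ∈ SpanD D)).card : ℝ) ≤ g := by exact_mod_cast hcard
      have h3 : 0 ≤ X ^ (m - dimF τ) * X := by positivity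
      nlinarith
    refine (Finset.sum_le_sum key).trans ?_
    rw [← Finset.sum_mul]
    apply mul_le_mul_of_nonneg_right (ih (by omega))
    positivity

end Pool.Agent.Lib.MP_6d8312_an
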