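import Mathlib

/-!
# Sets of analyticity: basic definitions
-/

set_option autoImplicit false

noncomputable section

namespace Pool.Agent.Lib.MP_6d8312_an

open MeasureTheory

/-- `e(x) = exp(2 pi i x)`. -/
def e (x : ℝ) : ℂ := Complex.exp (2 * Real.pi * x * Complex.I)

/-- The sequence `a`, restricted to `Λ`, belongs to `A(Λ)`: it is the restriction to `Λ` of the
Fourier transform of an integrable function on `ℝ/ℤ`. -/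
def InA (Λ : Set ℤ) (a : ℤ → ℂ) : Prop :=
  ∃ f : UnitAddCircle → ℂ, Integrable f AddCircle.haarAddCircle ∧
    ∀ n ∈ Λ, fourierCoeff f n = a n

/-- `F` operates on `A(Λ)` (only the values of `F` on `[-1,1]` matter). -/
def Operates (Λ : Set ℤ) (F : ℝ → ℝ) : Prop :=
  ∀ a : ℤ → ℝ, (∀ n ∈ Λ, a n ∈ Set.Icc (-1 : ℝ) 1) → InA Λ (fun n => (a n : ℂ)) →
    InA Λ (fun n => ((F (a n) : ℝ) : ℂ))

/-- `Λ` is a set of analyticity. -/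
def AnalyticitySet (Λ : Set ℤ) : Prop :=
  ∀ F : ℝ → ℝ, Operates Λ F → AnalyticAt ℝ F 0

/-- `f(n) = ∑ c_j e(n t_j)` (finite sum) with `∑ |c_j| ≤ r`. -/
def TP (r : ℝ) (f : ℤ → ℂ) : Prop :=
  ∃ (m : ℕ) (c : Fin m → ℂ) (t : Fin m → ℝ),
    (∀ n : ℤ, f n = ∑ j, c j * e (n * t j)) ∧ ∑ j, ‖c j‖ ≤ r

/-- The real valued version. -/
def RTP (r : ℝ) (U : ℤ → ℝ) : Prop := TP r (fun n => (U n : ℂ))

/-- The trigonometric polynomial with coefficients `w` and spectrum in `A`. -/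
def W (A : Finset ℤ) (w : ℤ → ℂ) (θ : ℝ) : ℂ := ∑ l ∈ A, w l * e (l * θ)

/-- Uniform boundedness of an operating function near `0`, tested by duality. -/
def Bdd (Λ : Set ℤ) (F : ℝ → ℝ) (R : ℕ) (r C : ℝ) : Prop :=
  ∀ A : Finset ℤ, (∀ n ∈ A, n ∈ Λ ∧ (R : ℤ) < |n|) → ∀ U : ℤ → ℝ, RTP r U →
    ∀ w : ℤ → ℂ, (∀ θ : ℝ, ‖W A w θ‖ ≤ 1) → ‖∑ l ∈ A, w l * ((F (U l) : ℝ) : ℂ)‖ ≤ C

/-- Exponential growth of `exp(i v)` in `A(Λ)`, tested by duality. -/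
def Growth (Λ : Set ℤ) : Prop :=
  ∀ R K₀ : ℕ, ∃ K : ℕ, K₀ ≤ K ∧ ∃ A : Finset ℤ, (∀ n ∈ A, n ∈ Λ ∧ (R : ℤ) < |n|) ∧
    ∃ v : ℤ → ℝ, RTP (K / 2) v ∧ ∃ w : ℤ → ℂ, (∀ θ : ℝ, ‖W A w θ‖ ≤ 1) ∧
      (1 / 2) * (14 / 13 : ℝ) ^ K ≤ ‖∑ l ∈ A, w l * Complex.exp (Complex.I * v l)‖

/-- The mesh generated by `ρ` with coefficients bounded by `N`. -/
def Mesh {s : ℕ} (ρ : Fin s → ℤ) (N : ℕ) : Set ℤ :=
  {l | ∃ m : Fin s → ℤ, (∀ i, |m i| ≤ N) ∧ l = ∑ i, m i * ρ i}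

end Pool.Agent.Lib.MP_6d8312_an
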