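import Pool.Agent.Lib.MP_6d8312_an.Num

/-! # Dense sets have exponential growth -/

set_option autoImplicit false

noncomputable section

namespace Pool.Agent.Lib.MP_6d8312_an

theorem growth_of_mesh (Λ : Set ℤ) (h : ∀ R : ℝ, ∃ (s N : ℕ) (ρ : Fin s → ℤ),
    R ≤ ((Λ ∩ Mesh ρ N).ncard : ℝ) ∧
    Real.exp (200000 * (Real.log (s * Real.log (N + 2) + 2)) ^ 2) ≤ ((Λ ∩ Mesh ρ N).ncard : ℝ)) :
    Growth Λ := by
  classical
  intro R K₀
  obtain ⟨s, N, ρ, h1, h2⟩ := h (max (Real.exp (2 * Real.exp K₀)) ((2 * (R : ℝ) + 3) ^ 2))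
  have hfin : (Λ ∩ Mesh ρ N).Finite := (mesh_finite ρ N).subset Set.inter_subset_right
  set n : ℕ := (Λ ∩ Mesh ρ N).ncard with hn
  have hn1 : Real.exp (2 * Real.exp K₀) ≤ n := (le_max_left _ _).trans h1
  have hn2 : (2 * (R : ℝ) + 3) ^ 2 ≤ n := (le_max_right _ _).trans h1
  have hR0 : (0 : ℝ) ≤ R := Nat.cast_nonneg R
  have hnpos : (0 : ℝ) < n := lt_of_lt_of_le (Real.exp_pos _) hn1
  have hN0 : (0 : ℝ) ≤ N := Nat.cast_nonneg N
  have hs0 : (0 : ℝ) ≤ s := Nat.cast_nonneg s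
  set X : ℝ := s * Real.log (N + 2) + 2 with hX
  have hlogN : 0 ≤ Real.log ((N : ℝ) + 2) := Real.log_nonneg (by linarith)
  have hX2 : 2 ≤ X := by
    have : 0 ≤ (s : ℝ) * Real.log (N + 2) := mul_nonneg hs0 hlogN
    linarith
  -- the size of `X`
  have hcard : (n : ℝ) ≤ ((2 * N + 1 : ℕ) : ℝ) ^ s := by
    have h3 : n ≤ (2 * N + 1) ^ s :=
      (Set.ncard_le_ncard Set.inter_subset_right (mesh_finite ρ N)).trans (mesh_card ρ N)
    exact_mod_cast h3
  have hlogn : Real.log n ≤ 2 * X := by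
    have h3 := Real.log_le_log hnpos hcard
    rw [Real.log_pow] at h3
    have h4 : Real.log ((2 * N + 1 : ℕ) : ℝ) ≤ 2 * Real.log (N + 2) := by
      have h5 : ((2 * N + 1 : ℕ) : ℝ) ≤ ((N : ℝ) + 2) ^ 2 := by
        push_cast
        nlinarith
      have h6 := Real.log_le_log (by positivity) h5
      rw [Real.log_pow] at h6
      push_cast at h6 ⊢
      exact h6
    calc Real.log n ≤ s * Real.log ((2 * N + 1 : ℕ) : ℝ) := h3
      _ ≤ s * (2 * Real.log (N + 2)) := mul_le_mul_of_nonneg_left h4 hs0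
      _ ≤ 2 * X := by rw [hX]; linarith
  have hXK : Real.exp K₀ ≤ X := by
    have h3 : 2 * Real.exp K₀ ≤ Real.log n := (Real.le_log_iff_exp_le hnpos).2 hn1
    linarith
  have hK₀ : (K₀ : ℝ) ≤ Real.log X := (Real.le_log_iff_exp_le (by linarith)).2 hXK
  -- the finite set
  set A : Finset ℤ := hfin.toFinset.filter (fun l => (R : ℤ) < |l|) with hA
  have hAmem : ∀ l ∈ A, l ∈ Λ ∧ l ∈ Mesh ρ N ∧ (R : ℤ) < |l| := by
    intro l hl
    rw [hA, Finset.mem_filter, Set.Finite.mem_toFinset] at hl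
    exact ⟨hl.1.1, hl.1.2, hl.2⟩
  have h0 : (0 : ℤ) ∉ A := by
    intro h0
    have := (hAmem 0 h0).2.2
    rw [abs_zero] at this
    have h3 : (0 : ℤ) ≤ R := Int.natCast_nonneg R
    omega
  have hcardA : n ≤ A.card + (2 * R + 1) := by
    have h3 : hfin.toFinset ⊆ A ∪ Finset.Icc (-(R : ℤ)) R := by
      intro l hl
      rw [Finset.mem_union, Finset.mem_Icc, hA, Finset.mem_filter]
      by_cases h4 : (R : ℤ) < |l|
      · exact Or.inl ⟨hl, h4⟩
      · right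
        rw [not_lt, abs_le] at h4
        exact h4
    have h4 := (Finset.card_le_card h3).trans (Finset.card_union_le _ _)
    rw [← Set.ncard_eq_toFinset_card _ hfin, ← hn, Int.card_Icc] at h4
    have h5 : ((R : ℤ) + 1 - -(R : ℤ)).toNat = 2 * R + 1 := by
      have : (R : ℤ) + 1 - -(R : ℤ) = ((2 * R + 1 : ℕ) : ℤ) := by push_cast; ring
      rw [this, Int.toNat_natCast]
    rwa [h5] at h4
  have hcardA' : (n : ℝ) ≤ A.card + (2 * R + 1) := by exact_mod_cast hcardA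
  have hsqrt : Real.sqrt n ≤ A.card := by
    have h3 : 2 * (R : ℝ) + 3 ≤ Real.sqrt n := Real.le_sqrt_of_sq_le hn2
    have h4 : Real.sqrt n * Real.sqrt n = n := Real.mul_self_sqrt hnpos.le
    nlinarith
  have hexp : Real.exp (100000 * (Real.log X) ^ 2) ≤ A.card := by
    refine le_trans ?_ hsqrt
    apply Real.le_sqrt_of_sq_le
    rw [← Real.exp_nat_mul]
    refine le_trans (le_of_eq ?_) h2
    congr 1
    push_cast
    ring
  have hc : Ctrl A s N := ⟨1, ρ, one_ne_zero, fun l hl => by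
    rw [one_mul]; exact (hAmem l hl).2.1⟩
  obtain ⟨K, hK, A', hA', v, hv, w, hw, hvw⟩ := succ_of_card A h0 s N K₀ hc hK₀ hexp
  exact ⟨K, hK, A', fun l hl => ⟨(hAmem l (hA' hl)).1, (hAmem l (hA' hl)).2.2⟩, v, hv, w, hw, hvw⟩

end Pool.Agent.Lib.MP_6d8312_an
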