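import Pool.Agent.Lib.MP_6d8312_an.Key
import Pool.Agent.Lib.MP_6d8312_an.Control

/-! # Iteration -/

set_option autoImplicit false

noncomputable section

namespace Pool.Agent.Lib.MP_6d8312_an

theorem Succ.mono {A B : Finset ℤ} {K : ℕ} (h : Succ A K) (hAB : A ⊆ B) : Succ B K := by
  obtain ⟨A', hA', v, hv, w, hw⟩ := h
  exact ⟨A', hA'.trans hAB, v, hv, w, hw⟩

theorem step (A : Finset ℤ) (h0 : (0 : ℤ) ∉ A) (hne : A.Nonempty) (s N q K : ℕ) (hq : 0 < q)
    (hc : Ctrl A s N) (h : ((4 * q * N + 1 : ℕ) : ℝ) ^ s ≤ (13 / 12 : ℝ) ^ (2 * q * K)) :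
    Succ A K ∨ ∃ A' ⊆ A, A.card < 2 ^ K * A'.card ∧ Ctrl A' (2 * q) 4 := by
  classical
  by_cases hg : ∀ D ⊆ A, D.card ≤ 2 * q →
      (A.filter (fun l => l ∈ SpanD D)).card ≤ A.card / 2 ^ K
  · left
    have h1 : 2 ^ K * (A.card / 2 ^ K) ≤ A.card := Nat.mul_div_le _ _
    have h2 : ((Sums A q).card : ℝ) ≤ (13 / 12 : ℝ) ^ (2 * q * K) := by
      refine le_trans ?_ h
      exact_mod_cast hc.card_sums q
    obtain ⟨v, hv, w, hw, hvw⟩ := key A h0 hne q K _ hq hg h1 h2
    exact ⟨A, subset_rfl, v, hv, w, hw, hvw⟩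
  · right
    push Not at hg
    obtain ⟨D, hD, hcard, hlt⟩ := hg
    refine ⟨A.filter (fun l => l ∈ SpanD D), Finset.filter_subset _ _, ?_, ?_⟩
    · rw [mul_comm]
      exact (Nat.div_lt_iff_lt_mul (by positivity)).mp hlt
    · refine ctrl_span D _ (2 * q) hcard ?_
      intro l hl
      exact (Finset.mem_filter.mp (Finset.mem_coe.mp hl)).2

theorem iterate (K : ℕ) : ∀ (j : ℕ) (A : Finset ℤ) (s : ℕ), (0 : ℤ) ∉ A → Ctrl A s 4 →
    s ≤ 2 ^ (j + 3) → 64 * Real.log (4 * s + 1) ≤ K →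
    2 ^ (K * (j + 1)) * 9 ^ 8 < A.card → Succ A K := by
  intro j
  induction j with
  | zero =>
    intro A s _ hc hs _ hcard
    exfalso
    have h1 := hc.card_le
    have hs' : s ≤ 8 := by simpa using hs
    have h2 : (2 * 4 + 1) ^ s ≤ 9 ^ 8 := by
      show 9 ^ s ≤ 9 ^ 8
      exact Nat.pow_le_pow_right (by norm_num) hs'
    have h3 : 1 ≤ 2 ^ (K * (0 + 1)) := Nat.one_le_two_pow
    have h4 : 1 * 9 ^ 8 ≤ 2 ^ (K * (0 + 1)) * 9 ^ 8 := Nat.mul_le_mul_right _ h3
    omega
  | succ j ih =>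
    intro A s h0 hc hs hK hcard
    have hne : A.Nonempty := by
      rw [← Finset.card_pos]
      omega
    by_cases hs8 : s ≤ 8
    · exfalso
      have h1 := hc.card_le
      have h2 : (2 * 4 + 1) ^ s ≤ 9 ^ 8 := by
        show 9 ^ s ≤ 9 ^ 8
        exact Nat.pow_le_pow_right (by norm_num) hs8
      have h3 : 1 ≤ 2 ^ (K * (j + 1 + 1)) := Nat.one_le_two_pow
      have h4 : 1 * 9 ^ 8 ≤ 2 ^ (K * (j + 1 + 1)) * 9 ^ 8 := Nat.mul_le_mul_right _ h3
      omega
    push Not at hs8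
    set q := s / 4 with hq
    have hq2 : 2 ≤ q := by omega
    have hqs : 2 * q ≤ s := by omega
    have hineq : ((4 * q * 4 + 1 : ℕ) : ℝ) ^ s ≤ (13 / 12 : ℝ) ^ (2 * q * K) := by
      have hb1 : (0 : ℝ) < ((4 * q * 4 + 1 : ℕ) : ℝ) := by positivity
      have hb2 : (0 : ℝ) < 4 * (s : ℝ) + 1 := by positivity
      rw [← Real.log_le_log_iff (by positivity) (by positivity), Real.log_pow, Real.log_pow]
      have h1 : Real.log ((4 * q * 4 + 1 : ℕ) : ℝ) ≤ Real.log (4 * (s : ℝ) + 1) := by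
        apply Real.log_le_log hb1
        have : 4 * q * 4 + 1 ≤ 4 * s + 1 := by omega
        exact_mod_cast this
      have h2 : (1 / 13 : ℝ) ≤ Real.log (13 / 12) := by
        have := Real.one_sub_inv_le_log_of_pos (x := (13 / 12 : ℝ)) (by norm_num)
        norm_num at this
        linarith
      have hs0 : (0 : ℝ) ≤ s := by positivity
      have hq6 : (s : ℝ) ≤ 6 * q := by
        have : s ≤ 6 * q := by omega
        exact_mod_cast this
      have hlog : 0 ≤ Real.log (4 * (s : ℝ) + 1) := Real.log_nonneg (by linarith)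
      have hK0 : (0 : ℝ) ≤ K := by positivity
      calc (s : ℝ) * Real.log ((4 * q * 4 + 1 : ℕ) : ℝ) ≤ s * Real.log (4 * (s : ℝ) + 1) :=
            mul_le_mul_of_nonneg_left h1 hs0
        _ ≤ s * ((K : ℝ) / 64) := by
            apply mul_le_mul_of_nonneg_left _ hs0
            linarith
        _ ≤ (6 * q) * ((K : ℝ) / 64) := by
            apply mul_le_mul_of_nonneg_right hq6
            positivity
        _ ≤ (2 * q * K) * (1 / 13) := by
            have : (0 : ℝ) ≤ q * K := by positivity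
            nlinarith
        _ ≤ (2 * q * K) * Real.log (13 / 12) := by
            apply mul_le_mul_of_nonneg_left h2
            positivity
        _ = ((2 * q * K : ℕ) : ℝ) * Real.log (13 / 12) := by push_cast; ring
    rcases step A h0 hne s 4 q K (by omega) hc hineq with h | ⟨A', hA', hcard', hctrl⟩
    · exact h
    · refine Succ.mono (ih A' (2 * q) (fun h => h0 (hA' h)) hctrl ?_ ?_ ?_) hA'
      · have : 2 ^ (j + 1 + 3) = 2 * 2 ^ (j + 3) := by ring
        omega
      · refine le_trans ?_ hK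
        have h1 : Real.log (4 * ((2 * q : ℕ) : ℝ) + 1) ≤ Real.log (4 * (s : ℝ) + 1) := by
          apply Real.log_le_log (by positivity)
          have : 4 * (2 * q) + 1 ≤ 4 * s + 1 := by omega
          exact_mod_cast this
        linarith
      · have h1 : 2 ^ (K * (j + 1 + 1)) = 2 ^ K * 2 ^ (K * (j + 1)) := by
          rw [← pow_add]
          congr 1
          ring
        have h2 : 2 ^ K * (2 ^ (K * (j + 1)) * 9 ^ 8) < 2 ^ K * A'.card := by
          calc 2 ^ K * (2 ^ (K * (j + 1)) * 9 ^ 8) = 2 ^ (K * (j + 1 + 1)) * 9 ^ 8 := by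
                rw [h1]; ring
            _ < A.card := hcard
            _ < 2 ^ K * A'.card := hcard'
        exact Nat.lt_of_mul_lt_mul_left h2

end Pool.Agent.Lib.MP_6d8312_an
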