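import Pool.Agent.Lib.MP_6d8312_an.Numer1

/-! # The numerator -/

set_option autoImplicit false

noncomputable section

namespace Pool.Agent.Lib.MP_6d8312_an

/-- the factor of the numerator -/
def numer2_psi (M : ℕ) (x : ℝ) : ℂ :=
  (1 - Complex.I * (Real.cos (2 * Real.pi * (x / M)) : ℝ)) *
    Complex.exp (Complex.I * ((1 / 2 * Real.cos (2 * Real.pi * (x / M)) : ℝ) : ℂ))

theorem numer2_mod (M : ℕ) (hM : M ≠ 0) (n : ℤ) :
    numer2_psi M (n : ℝ) = numer2_psi M (((n : ZMod M).val : ℕ) : ℝ) := by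
  have : NeZero M := ⟨hM⟩
  have hM0 : (M : ℝ) ≠ 0 := by exact_mod_cast hM
  have h1 : (((n : ZMod M).val : ℕ) : ℤ) = n % M := ZMod.val_intCast n
  have h2 : (((n : ZMod M).val : ℕ) : ℝ) = (n : ℝ) - M * ((n / (M : ℤ) : ℤ) : ℝ) := by
    have h3 : (((n : ZMod M).val : ℕ) : ℤ) = n - M * (n / M) := by
      rw [h1, Int.emod_def]
    exact_mod_cast congrArg (fun z : ℤ => (z : ℝ)) h3
  have h4 : Real.cos (2 * Real.pi * ((n : ℝ) / M)) =
      Real.cos (2 * Real.pi * ((((n : ZMod M).val : ℕ) : ℝ) / M)) := by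
    rw [h2]
    have h5 : 2 * Real.pi * (((n : ℝ) - M * ((n / (M : ℤ) : ℤ) : ℝ)) / M) =
        2 * Real.pi * ((n : ℝ) / M) - ((n / (M : ℤ) : ℤ) : ℝ) * (2 * Real.pi) := by
      field_simp
    rw [h5, Real.cos_sub_int_mul_two_pi]
  unfold numer2_psi
  rw [h4]

theorem numer2_sum_zmod (M : ℕ) (hM : M ≠ 0) [Fintype (ZMod M)] (f : ZMod M → ℂ) :
    ∑ z : ZMod M, f z = ∑ k ∈ Finset.range M, f (k : ZMod M) := by
  have : NeZero M := ⟨hM⟩
  apply Finset.sum_nbij' (fun z : ZMod M => z.val) (fun k : ℕ => (k : ZMod M))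
  · intro z _
    rw [Finset.mem_range]
    exact ZMod.val_lt z
  · intro k _
    exact Finset.mem_univ _
  · intro z _
    exact ZMod.natCast_zmod_val z
  · intro k hk
    exact ZMod.val_cast_of_lt (Finset.mem_range.1 hk)
  · intro z _
    rw [ZMod.natCast_zmod_val]

theorem numer2_perm (M : ℕ) (hM : M.Prime) (l : ℤ) (hl : ¬ (M : ℤ) ∣ l) :
    ∑ k ∈ Finset.range M, numer2_psi M ((l : ℝ) * k) =
      ∑ k ∈ Finset.range M, numer2_psi M (k : ℝ) := by
  have hM0 : M ≠ 0 := hM.ne_zero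
  have : NeZero M := ⟨hM0⟩
  have : Fact M.Prime := ⟨hM⟩
  have hlz : (l : ZMod M) ≠ 0 := by
    rw [Ne, ZMod.intCast_zmod_eq_zero_iff_dvd]
    exact hl
  set g : ZMod M → ℂ := fun z => numer2_psi M ((z.val : ℕ) : ℝ) with hg
  calc ∑ k ∈ Finset.range M, numer2_psi M ((l : ℝ) * k)
      = ∑ k ∈ Finset.range M, g ((l : ZMod M) * (k : ZMod M)) := by
        apply Finset.sum_congr rfl
        intro k _
        have h1 := numer2_mod M hM0 (l * k)
        push_cast at h1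
        exact h1
    _ = ∑ z : ZMod M, g ((l : ZMod M) * z) :=
        (numer2_sum_zmod M hM0 (fun z => g ((l : ZMod M) * z))).symm
    _ = ∑ z : ZMod M, g z := Fintype.sum_equiv (Equiv.mulLeft₀ (l : ZMod M) hlz) _ _ fun z => rfl
    _ = ∑ k ∈ Finset.range M, g (k : ZMod M) := numer2_sum_zmod M hM0 g
    _ = ∑ k ∈ Finset.range M, numer2_psi M (k : ℝ) := by
        apply Finset.sum_congr rfl
        intro k hk
        rw [hg]
        show numer2_psi M _ = _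
        rw [ZMod.val_cast_of_lt (Finset.mem_range.1 hk)]

theorem numerator (A : Finset ℤ) (K M : ℕ) (hM : M.Prime) (hM3 : 3 ≤ M)
    (hA : ∀ l ∈ A, ¬ (M : ℤ) ∣ l) :
    (7 / 6 : ℝ) ^ K * A.card ≤ ‖(1 / (M : ℂ)) ^ K * ∑ k : Fin K → Fin M, ∑ l ∈ A,
      wt (fun j => ((k j : ℕ) : ℝ) / M) l *
        Complex.exp (Complex.I * (vt (fun j => ((k j : ℕ) : ℝ) / M) l : ℝ))‖ := by
  set ρ : ℂ := (1 / (M : ℂ)) * ∑ k ∈ Finset.range M, numer2_psi M (k : ℝ) with hρ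
  have hρb : (7 / 6 : ℝ) ≤ ‖ρ‖ := rho_bound M hM3
  have hterm : ∀ (k : Fin K → Fin M) (l : ℤ), wt (fun j => ((k j : ℕ) : ℝ) / M) l *
      Complex.exp (Complex.I * (vt (fun j => ((k j : ℕ) : ℝ) / M) l : ℝ)) =
      ∏ j, numer2_psi M ((l : ℝ) * ((k j : ℕ) : ℝ)) := by
    intro k l
    unfold wt vt
    rw [Complex.ofReal_sum, Finset.mul_sum, Complex.exp_sum, ← Finset.prod_mul_distrib]
    apply Finset.prod_congr rfl
    intro j _
    unfold numer2_psi
    rw [mul_div_assoc]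
  have hl : ∀ l ∈ A, ∑ k : Fin K → Fin M, ∏ j, numer2_psi M ((l : ℝ) * ((k j : ℕ) : ℝ)) =
      (∑ k ∈ Finset.range M, numer2_psi M (k : ℝ)) ^ K := by
    intro l hl
    rw [← Fintype.sum_pow (fun m : Fin M => numer2_psi M ((l : ℝ) * ((m : ℕ) : ℝ))) K,
      Fin.sum_univ_eq_sum_range (fun m : ℕ => numer2_psi M ((l : ℝ) * (m : ℝ))) M,
      numer2_perm M hM l (hA l hl)]
  have hmain : (1 / (M : ℂ)) ^ K * ∑ k : Fin K → Fin M, ∑ l ∈ A,
      wt (fun j => ((k j : ℕ) : ℝ) / M) l *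
        Complex.exp (Complex.I * (vt (fun j => ((k j : ℕ) : ℝ) / M) l : ℝ)) =
      (A.card : ℂ) * ρ ^ K := by
    simp only [hterm]
    rw [Finset.sum_comm, Finset.sum_congr rfl hl, Finset.sum_const, nsmul_eq_mul, hρ, mul_pow]
    ring
  rw [hmain, norm_mul, norm_pow, Complex.norm_natCast, mul_comm]
  exact mul_le_mul_of_nonneg_left (pow_le_pow_left₀ (by norm_num) hρb K) (Nat.cast_nonneg _)

end Pool.Agent.Lib.MP_6d8312_an
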