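import Pool.Agent.Lib.MP_6d8312_an.CDefs

/-! # Sup norm and discrete moments -/

set_option autoImplicit false

noncomputable section

namespace Pool.Agent.Lib.MP_6d8312_an

lemma supB_e_sum {ι : Type*} (s : Finset ι) (x : ι → ℝ) : e (∑ i ∈ s, x i) = ∏ i ∈ s, e (x i) := by
  classical
  induction s using Finset.induction_on with
  | empty => simp [e_zero]
  | insert a s ha ih => rw [Finset.sum_insert ha, Finset.prod_insert ha, e_add, ih]

lemma supB_e_nat (x : ℝ) (k : ℕ) : e (k * x) = e x ^ k := by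
  induction k with
  | zero => simp [e_zero]
  | succ n ih => rw [pow_succ, ← ih, ← e_add]; congr 1; push_cast; ring

lemma supB_conj_e (x : ℝ) : (starRingEnd ℂ) (e x) = e (-x) := by
  unfold e
  rw [← Complex.exp_conj]
  congr 1
  have h2 : (starRingEnd ℂ) 2 = 2 := Complex.conj_ofNat 2
  simp [h2]

lemma supB_geom (d : ℤ) (M : ℕ) (hM0 : 0 < M) (hd : |d| < M) :
    (1 / (M : ℂ)) * ∑ k ∈ Finset.range M, e (d * ((k : ℝ) / M)) = if d = 0 then 1 else 0 := by
  have hM : (M : ℝ) ≠ 0 := by positivity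
  have hMC : (M : ℂ) ≠ 0 := by exact_mod_cast hM0.ne'
  split_ifs with h
  · subst h
    simp [e_zero, hMC]
  · have h1 : ∀ k ∈ Finset.range M, e (d * ((k : ℝ) / M)) = e (d / M) ^ k := by
      intro k _
      rw [← supB_e_nat]
      congr 1
      ring
    rw [Finset.sum_congr rfl h1]
    have hne : e (d / M) ≠ 1 := by
      intro h2
      unfold e at h2
      rw [Complex.exp_eq_one_iff] at h2
      obtain ⟨n, hn⟩ := h2
      have h3 : (2 * (Real.pi : ℂ) * Complex.I) ≠ 0 := Complex.two_pi_I_ne_zero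
      have h4 : ((d / M : ℝ) : ℂ) = n := by
        have : (2 * (Real.pi : ℂ) * Complex.I) * ((d / M : ℝ) : ℂ) =
            (2 * (Real.pi : ℂ) * Complex.I) * n := by
          rw [mul_comm _ (n : ℂ), ← hn]
          ring
        exact mul_left_cancel₀ h3 this
      have h5 : (d : ℝ) / M = n := by exact_mod_cast h4
      rw [div_eq_iff hM] at h5
      have h6 : d = n * M := by exact_mod_cast h5
      have hn0 : n ≠ 0 := by
        rintro rfl
        apply h
        rw [h6, zero_mul]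
      rw [h6, abs_mul] at hd
      have h7 : 1 ≤ |n| := Int.one_le_abs hn0
      have h8 : |(M : ℤ)| = M := abs_of_nonneg (by positivity)
      rw [h8] at hd
      have hMz : (0 : ℤ) < M := by exact_mod_cast hM0
      nlinarith
    rw [geom_sum_eq hne]
    have h9 : e (d / M) ^ M = 1 := by
      rw [← supB_e_nat, mul_div_cancel₀ _ hM, e_int]
    rw [h9]
    simp

lemma supB_pow (A : Finset ℤ) (w : ℤ → ℂ) (q : ℕ) (x : ℝ) :
    W A w x ^ q = ∑ τ ∈ Fintype.piFinset (fun _ : Fin q => A),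
      (∏ i, w (τ i)) * e ((∑ i, τ i : ℤ) * x) := by
  have h1 : W A w x ^ q = ∏ _i : Fin q, ∑ l ∈ A, w l * e (l * x) := by
    rw [Finset.prod_const, Finset.card_univ, Fintype.card_fin, W]
  rw [h1, Finset.prod_univ_sum]
  refine Finset.sum_congr rfl fun τ _ => ?_
  rw [Finset.prod_mul_distrib, ← supB_e_sum, ← Finset.sum_mul]
  congr 2
  push_cast
  ring

lemma supB_small (A : Finset ℤ) (q M : ℕ) (hM0 : 0 < M)
    (hM : ∀ l ∈ A, 4 * (q : ℤ) * |l| < M) (m : ℤ) (hm : m ∈ Sums A q) : 2 * |m| < M := by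
  unfold Sums at hm
  rw [Finset.mem_image] at hm
  obtain ⟨p, hp, rfl⟩ := hm
  rw [Finset.mem_product, Fintype.mem_piFinset, Fintype.mem_piFinset] at hp
  rcases Nat.eq_zero_or_pos q with rfl | hq
  · simp; exact hM0
  · have hqz : (0 : ℤ) < q := by exact_mod_cast hq
    have h1 : |∑ i, p.1 i - ∑ i, p.2 i| ≤ ∑ i : Fin q, (|p.1 i| + |p.2 i|) := by
      rw [← Finset.sum_sub_distrib]
      refine (Finset.abs_sum_le_sum_abs _ _).trans (Finset.sum_le_sum fun i _ => ?_)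
      exact abs_sub _ _
    have h2 : (4 * (q : ℤ)) * ∑ i : Fin q, (|p.1 i| + |p.2 i|) ≤
        ∑ _i : Fin q, (2 * ((M : ℤ) - 1)) := by
      rw [Finset.mul_sum]
      refine Finset.sum_le_sum fun i _ => ?_
      have h3 := hM _ (hp.1 i)
      have h4 := hM _ (hp.2 i)
      linarith
    rw [Finset.sum_const, Finset.card_univ, Fintype.card_fin, nsmul_eq_mul] at h2
    have h5 : (4 * (q : ℤ)) * |∑ i, p.1 i - ∑ i, p.2 i| ≤ (q : ℤ) * (2 * ((M : ℤ) - 1)) :=
      (mul_le_mul_of_nonneg_left h1 (by positivity)).trans h2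
    have h6 : (q : ℤ) * (2 * (2 * |∑ i, p.1 i - ∑ i, p.2 i|)) ≤
        (q : ℤ) * (2 * ((M : ℤ) - 1)) := by linarith
    have h7 := le_of_mul_le_mul_left h6 hqz
    linarith

/-- the coefficients of `‖W‖^(2q)` -/
def supB_coef (A : Finset ℤ) (w : ℤ → ℂ) (q : ℕ) (m : ℤ) : ℂ :=
  ∑ p ∈ ((Fintype.piFinset (fun _ : Fin q => A)) ×ˢ
    (Fintype.piFinset (fun _ : Fin q => A))).filter
      (fun p => ∑ i, p.1 i - ∑ i, p.2 i = m),
    (∏ i, w (p.1 i)) * (starRingEnd ℂ) (∏ i, w (p.2 i))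

lemma supB_expand (A : Finset ℤ) (w : ℤ → ℂ) (q : ℕ) (x : ℝ) :
    ((‖W A w x‖ ^ (2 * q) : ℝ) : ℂ) = ∑ m ∈ Sums A q, supB_coef A w q m * e (m * x) := by
  have h1 : ((‖W A w x‖ ^ (2 * q) : ℝ) : ℂ) = W A w x ^ q * (starRingEnd ℂ) (W A w x ^ q) := by
    rw [Complex.mul_conj, Complex.normSq_eq_norm_sq, norm_pow, ← pow_mul, mul_comm q 2]
  rw [h1, supB_pow, map_sum, Finset.sum_mul_sum, ← Finset.sum_product']
  rw [← Finset.sum_fiberwise_of_maps_to (g := fun p : (Fin q → ℤ) × (Fin q → ℤ) =>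
    ∑ i, p.1 i - ∑ i, p.2 i) (t := Sums A q) (fun p hp => Finset.mem_image_of_mem _ hp)]
  refine Finset.sum_congr rfl fun m _ => ?_
  rw [supB_coef, Finset.sum_mul]
  refine Finset.sum_congr rfl fun p hp => ?_
  rw [Finset.mem_filter] at hp
  rw [map_mul, supB_conj_e, ← hp.2]
  have h2 : e (((∑ i, p.1 i - ∑ i, p.2 i : ℤ) : ℝ) * x) =
      e (((∑ i, p.1 i : ℤ) : ℝ) * x) * e (-(((∑ i, p.2 i : ℤ) : ℝ) * x)) := by
    rw [← e_add]
    congr 1
    push_cast
    ring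
  rw [h2]
  ring

lemma supB_coef_eq (A : Finset ℤ) (w : ℤ → ℂ) (q M : ℕ) (hM0 : 0 < M)
    (hM : ∀ l ∈ A, 4 * (q : ℤ) * |l| < M) (m : ℤ) (hm : m ∈ Sums A q) :
    supB_coef A w q m = (1 / (M : ℂ)) * ∑ k ∈ Finset.range M,
      ((‖W A w ((k : ℝ) / M)‖ ^ (2 * q) : ℝ) : ℂ) * e (-(m * ((k : ℝ) / M))) := by
  have h1 : ∀ k ∈ Finset.range M,
      ((‖W A w ((k : ℝ) / M)‖ ^ (2 * q) : ℝ) : ℂ) * e (-(m * ((k : ℝ) / M))) =
      ∑ m' ∈ Sums A q, supB_coef A w q m' * e (((m' - m : ℤ) : ℝ) * ((k : ℝ) / M)) := by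
    intro k _
    rw [supB_expand, Finset.sum_mul]
    refine Finset.sum_congr rfl fun m' _ => ?_
    rw [mul_assoc, ← e_add]
    congr 2
    push_cast
    ring
  rw [Finset.sum_congr rfl h1, Finset.sum_comm, Finset.mul_sum]
  have h2 : ∀ m' ∈ Sums A q, (1 / (M : ℂ)) * ∑ k ∈ Finset.range M,
      supB_coef A w q m' * e (((m' - m : ℤ) : ℝ) * ((k : ℝ) / M)) =
      if m' = m then supB_coef A w q m' else 0 := by
    intro m' hm'
    rw [← Finset.mul_sum, mul_left_comm, supB_geom (m' - m) M hM0]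
    · by_cases h : m' = m
      · simp [h]
      · simp [h, sub_eq_zero]
    · have h3 := supB_small A q M hM0 hM m hm
      have h4 := supB_small A q M hM0 hM m' hm'
      have h5 := abs_sub m' m
      linarith
  rw [Finset.sum_congr rfl h2, Finset.sum_ite_eq' (Sums A q) m, if_pos hm]

theorem sup_bound (A : Finset ℤ) (w : ℤ → ℂ) (q M : ℕ) (hM0 : 0 < M)
    (hM : ∀ l ∈ A, 4 * (q : ℤ) * |l| < M) (θ : ℝ) :
    ‖W A w θ‖ ^ (2 * q) ≤ (Sums A q).card *
      ((1 / (M : ℝ)) * ∑ k ∈ Finset.range M, ‖W A w ((k : ℝ) / M)‖ ^ (2 * q)) := by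
  have h1 : ‖W A w θ‖ ^ (2 * q) = ‖∑ m ∈ Sums A q, supB_coef A w q m * e (m * θ)‖ := by
    rw [← supB_expand, Complex.norm_real, Real.norm_of_nonneg (by positivity)]
  rw [h1, ← nsmul_eq_mul]
  refine (norm_sum_le _ _).trans (Finset.sum_le_card_nsmul _ _ _ fun m hm => ?_)
  rw [norm_mul, norm_e, mul_one, supB_coef_eq A w q M hM0 hM m hm, norm_mul]
  have h2 : ‖(1 / (M : ℂ))‖ = 1 / (M : ℝ) := by
    rw [norm_div, norm_one, Complex.norm_natCast]
  rw [h2]
  refine mul_le_mul_of_nonneg_left ?_ (by positivity)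
  refine (norm_sum_le _ _).trans (Finset.sum_le_sum fun k _ => ?_)
  rw [norm_mul, norm_e, mul_one, Complex.norm_real, Real.norm_of_nonneg (by positivity)]

end Pool.Agent.Lib.MP_6d8312_an
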