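import Pool.Agent.Lib.MP_6d8312_an.Moment
import Pool.Agent.Lib.MP_6d8312_an.SupB
import Pool.Agent.Lib.MP_6d8312_an.Numer2

/-! # The key inequality -/

set_option autoImplicit false

noncomputable section

namespace Pool.Agent.Lib.MP_6d8312_an

theorem rtp_vt {K : ℕ} (t : Fin K → ℝ) : RTP (K / 2) (vt t) := by
  have h := RTP.sum (Finset.univ : Finset (Fin K)) (fun _ => |(1 / 2 : ℝ)| * 1)
    (fun j (n : ℤ) => (1 / 2) * Real.cos (2 * Real.pi * (n * t j)))
    (fun j _ => RTP.smul (1 / 2) (RTP.cos (t j)))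
  have e1 : ∑ _j : Fin K, |(1 / 2 : ℝ)| * 1 = K / 2 := by
    rw [Finset.sum_const, Finset.card_univ, Fintype.card_fin, nsmul_eq_mul,
      abs_of_pos (by norm_num : (0 : ℝ) < 1 / 2)]
    ring
  rw [e1] at h
  exact h

private def keyChar (l : ℤ) : Multiplicative ℝ →* ℂ where
  toFun θ := e (l * Multiplicative.toAdd θ)
  map_one' := by
    rw [toAdd_one, mul_zero]
    exact e_zero
  map_mul' a b := by
    rw [toAdd_mul, mul_add]
    exact e_add _ _

private lemma keyChar_injective : Function.Injective keyChar := by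
  intro l l' h
  by_contra hne
  have hd : ((l : ℝ) - l') ≠ 0 := by
    intro h0
    apply hne
    have h1 : (l : ℝ) = l' := by linarith
    exact_mod_cast h1
  have h1 := DFunLike.congr_fun h (Multiplicative.ofAdd (1 / (2 * ((l : ℝ) - l'))))
  have h2 : e (l * (1 / (2 * ((l : ℝ) - l')))) = e (l' * (1 / (2 * ((l : ℝ) - l')))) := h1
  have h3 : (l : ℝ) * (1 / (2 * ((l : ℝ) - l'))) =
      1 / 2 + l' * (1 / (2 * ((l : ℝ) - l'))) := by
    field_simp
    ring
  rw [h3, e_add] at h2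
  have h4 : e (1 / 2) = -1 := by
    unfold e
    rw [show (2 * (Real.pi : ℂ) * ((1 / 2 : ℝ) : ℂ) * Complex.I) = (Real.pi : ℂ) * Complex.I by
      push_cast; ring]
    exact Complex.exp_pi_mul_I
  rw [h4] at h2
  have h5 : e (l' * (1 / (2 * ((l : ℝ) - l')))) = 0 := by
    have h6 : 2 * e (l' * (1 / (2 * ((l : ℝ) - l')))) = 0 := by linear_combination -h2
    simpa using h6
  have h7 := norm_e (l' * (1 / (2 * ((l : ℝ) - l'))))
  rw [h5, norm_zero] at h7
  exact zero_ne_one h7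

private lemma key_coeff_zero (A : Finset ℤ) (w : ℤ → ℂ) (h : ∀ θ : ℝ, W A w θ = 0) :
    ∀ l ∈ A, w l = 0 := by
  have hli : LinearIndependent ℂ (fun l : ℤ => (keyChar l : Multiplicative ℝ → ℂ)) :=
    (linearIndependent_monoidHom (Multiplicative ℝ) ℂ).comp keyChar keyChar_injective
  rw [linearIndependent_iff'] at hli
  apply hli A w
  funext θ
  rw [Finset.sum_apply]
  have h1 := h (Multiplicative.toAdd θ)
  unfold W at h1
  exact h1

private lemma key_one_le_norm_wt {K : ℕ} (t : Fin K → ℝ) (l : ℤ) : 1 ≤ ‖wt t l‖ := by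
  unfold wt
  rw [norm_prod]
  have h1 : ∏ _j : Fin K, (1 : ℝ) ≤ ∏ j : Fin K,
      ‖(1 - Complex.I * (Real.cos (2 * Real.pi * (l * t j)) : ℝ) : ℂ)‖ := by
    apply Finset.prod_le_prod
    · intro i _
      norm_num
    · intro j _
      have h2 := Complex.abs_re_le_norm
        (1 - Complex.I * (Real.cos (2 * Real.pi * (l * t j)) : ℝ) : ℂ)
      have h3 : (1 - Complex.I * (Real.cos (2 * Real.pi * (l * t j)) : ℝ) : ℂ).re = 1 := by
        rw [Complex.sub_re, Complex.one_re, Complex.mul_re, Complex.I_re, Complex.ofReal_im]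
        ring
      rw [h3, abs_one] at h2
      exact h2
  simpa using h1

open Classical in
theorem key (A : Finset ℤ) (h0 : (0 : ℤ) ∉ A) (hne : A.Nonempty) (q K g : ℕ) (hq : 0 < q)
    (hg : ∀ D ⊆ A, D.card ≤ 2 * q → (A.filter (fun l => l ∈ SpanD D)).card ≤ g)
    (h1 : 2 ^ K * g ≤ A.card)
    (h2 : ((Sums A q).card : ℝ) ≤ (13 / 12 : ℝ) ^ (2 * q * K)) :
    ∃ v : ℤ → ℝ, RTP (K / 2) v ∧ ∃ w : ℤ → ℂ, (∀ θ : ℝ, ‖W A w θ‖ ≤ 1) ∧
      (1 / 2) * (14 / 13 : ℝ) ^ K ≤ ‖∑ l ∈ A, w l * Complex.exp (Complex.I * v l)‖ := by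
  -- a large prime
  obtain ⟨M, hMge, hMp⟩ := Nat.exists_infinite_primes (3 + ∑ l ∈ A, (4 * q * l.natAbs + 1))
  have hM3 : 3 ≤ M := by omega
  have hM0 : 0 < M := by omega
  have hMl : ∀ l ∈ A, 4 * (q : ℤ) * |l| < M := by
    intro l hl
    have h3 : 4 * q * l.natAbs + 1 ≤ ∑ l ∈ A, (4 * q * l.natAbs + 1) :=
      Finset.single_le_sum (f := fun l : ℤ => 4 * q * l.natAbs + 1) (fun _ _ => Nat.zero_le _) hl
    have h4 : 4 * q * l.natAbs < M := by omega
    rw [Int.abs_eq_natAbs]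
    exact_mod_cast h4
  have hMd : ∀ l ∈ A, ¬ (M : ℤ) ∣ l := by
    intro l hl hdvd
    have hl0 : l ≠ 0 := fun h => h0 (h ▸ hl)
    have h3 := Int.le_of_dvd (abs_pos.2 hl0) ((dvd_abs _ _).2 hdvd)
    have h4 := hMl l hl
    have h5 : |l| ≤ 4 * (q : ℤ) * |l| := by
      have h6 : (1 : ℤ) ≤ 4 * (q : ℤ) := by omega
      have h7 : (0 : ℤ) ≤ |l| := abs_nonneg l
      nlinarith
    omega
  have hMR : (0 : ℝ) < M := by exact_mod_cast hM0
  have hn : 0 < A.card := Finset.card_pos.2 hne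
  have hnR : (0 : ℝ) < (A.card : ℝ) := by exact_mod_cast hn
  -- notation
  set T : (Fin K → Fin M) → Fin K → ℝ := fun k j => ((k j : ℕ) : ℝ) / M with hT
  set S : ℝ := ((Sums A q).card : ℝ) with hS
  have hS0 : 0 ≤ S := by rw [hS]; positivity
  set P : (Fin K → Fin M) → ℝ := fun k =>
    (1 / (M : ℝ)) * ∑ i ∈ Finset.range M, ‖W A (wt (T k)) ((i : ℝ) / M)‖ ^ (2 * q) with hP
  have hP0 : ∀ k, 0 ≤ P k := by
    intro k
    rw [hP]
    positivity
  set Q : (Fin K → Fin M) → ℝ := fun k =>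
    ‖∑ l ∈ A, wt (T k) l * Complex.exp (Complex.I * (vt (T k) l : ℝ))‖ with hQ
  have hQ0 : ∀ k, 0 ≤ Q k := fun k => norm_nonneg _
  set c : ℝ := (1 / 2) * (14 / 13 : ℝ) ^ K with hc
  have hc0 : 0 < c := by positivity
  have hsup : ∀ k θ, ‖W A (wt (T k)) θ‖ ^ (2 * q) ≤ S * P k := fun k θ =>
    sup_bound A (wt (T k)) q M hM0 hMl θ
  have hwsum : ∑ _k : Fin K → Fin M, (1 / (M : ℝ)) ^ K = 1 := by
    rw [Finset.sum_const, Finset.card_univ, Fintype.card_fun, Fintype.card_fin, Fintype.card_fin,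
      nsmul_eq_mul]
    push_cast
    rw [← mul_pow, mul_one_div_cancel hMR.ne', one_pow]
  -- the mean of P
  have hEP : ∑ k : Fin K → Fin M, (1 / (M : ℝ)) ^ K * P k ≤ (2 * (A.card : ℝ)) ^ (2 * q) := by
    have e1 : ∑ k : Fin K → Fin M, (1 / (M : ℝ)) ^ K * P k =
        (1 / (M : ℝ)) * ∑ i ∈ Finset.range M, ((1 / (M : ℝ)) ^ K * ∑ k : Fin K → Fin M,
          ‖W A (wt (T k)) ((i : ℝ) / M)‖ ^ (2 * q)) := by
      simp only [hP, Finset.mul_sum]
      rw [Finset.sum_comm]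
      apply Finset.sum_congr rfl
      intro i _
      apply Finset.sum_congr rfl
      intro k _
      ring
    rw [e1]
    have h3 : ∀ i ∈ Finset.range M, ((1 / (M : ℝ)) ^ K * ∑ k : Fin K → Fin M,
          ‖W A (wt (T k)) ((i : ℝ) / M)‖ ^ (2 * q)) ≤ (2 * (A.card : ℝ)) ^ (2 * q) := by
      intro i _
      refine (moment A q K M g hM0 hMl hg ((i : ℝ) / M)).trans ?_
      apply pow_le_pow_left₀ (by positivity)
      have h4 : ((2 ^ K * g : ℕ) : ℝ) ≤ (A.card : ℝ) := by exact_mod_cast h1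
      push_cast at h4
      linarith
    calc (1 / (M : ℝ)) * ∑ i ∈ Finset.range M, ((1 / (M : ℝ)) ^ K * ∑ k : Fin K → Fin M,
          ‖W A (wt (T k)) ((i : ℝ) / M)‖ ^ (2 * q))
        ≤ (1 / (M : ℝ)) * ∑ _i ∈ Finset.range M, (2 * (A.card : ℝ)) ^ (2 * q) := by
          apply mul_le_mul_of_nonneg_left (Finset.sum_le_sum h3) (by positivity)
      _ = (2 * (A.card : ℝ)) ^ (2 * q) := by
          rw [Finset.sum_const, Finset.card_range, nsmul_eq_mul, ← mul_assoc,
            one_div_mul_cancel hMR.ne', one_mul]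
  -- the mean of Q
  have hEQ : (7 / 6 : ℝ) ^ K * A.card ≤ ∑ k : Fin K → Fin M, (1 / (M : ℝ)) ^ K * Q k := by
    refine (numerator A K M hMp hM3 hMd).trans ?_
    rw [norm_mul, norm_pow, norm_div, norm_one, Complex.norm_natCast, ← Finset.mul_sum]
    exact mul_le_mul_of_nonneg_left (norm_sum_le _ _) (by positivity)
  have hEQ2 : ((7 / 6 : ℝ) ^ K * A.card) ^ (2 * q) ≤
      ∑ k : Fin K → Fin M, (1 / (M : ℝ)) ^ K * Q k ^ (2 * q) := by
    refine (pow_le_pow_left₀ (by positivity) hEQ _).trans ?_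
    exact Real.pow_arith_mean_le_arith_mean_pow Finset.univ (fun _ => (1 / (M : ℝ)) ^ K) Q
      (fun _ _ => by positivity) hwsum (fun k _ => hQ0 k) (2 * q)
  -- a good choice of `k`
  have hex : ∃ k, c ^ (2 * q) * (S * P k) ≤ Q k ^ (2 * q) := by
    by_contra hcon
    push Not at hcon
    have hk0 : Nonempty (Fin K → Fin M) := ⟨fun _ => ⟨0, hM0⟩⟩
    have h3 : ∑ k : Fin K → Fin M, (1 / (M : ℝ)) ^ K * Q k ^ (2 * q) <
        ∑ k : Fin K → Fin M, (1 / (M : ℝ)) ^ K * (c ^ (2 * q) * (S * P k)) := by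
      apply Finset.sum_lt_sum_of_nonempty Finset.univ_nonempty
      intro k _
      exact mul_lt_mul_of_pos_left (hcon k) (by positivity)
    have h4 : ∑ k : Fin K → Fin M, (1 / (M : ℝ)) ^ K * (c ^ (2 * q) * (S * P k)) =
        c ^ (2 * q) * S * ∑ k : Fin K → Fin M, (1 / (M : ℝ)) ^ K * P k := by
      rw [Finset.mul_sum]
      apply Finset.sum_congr rfl
      intro k _
      ring
    have h5 : c ^ (2 * q) * S * ∑ k : Fin K → Fin M, (1 / (M : ℝ)) ^ K * P k ≤
        c ^ (2 * q) * (13 / 12 : ℝ) ^ (2 * q * K) * (2 * (A.card : ℝ)) ^ (2 * q) := by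
      apply mul_le_mul _ hEP
      · apply Finset.sum_nonneg
        intro k _
        exact mul_nonneg (by positivity) (hP0 k)
      · positivity
      · exact mul_le_mul_of_nonneg_left h2 (by positivity)
    have h6 : c ^ (2 * q) * (13 / 12 : ℝ) ^ (2 * q * K) * (2 * (A.card : ℝ)) ^ (2 * q) =
        ((7 / 6 : ℝ) ^ K * A.card) ^ (2 * q) := by
      rw [show 2 * q * K = K * (2 * q) by ring, pow_mul (13 / 12 : ℝ) K (2 * q), ← mul_pow, ← mul_pow]
      congr 1
      rw [hc, show (7 / 6 : ℝ) = (14 / 13) * (13 / 12) by norm_num, mul_pow]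
      ring
    linarith
  obtain ⟨k, hk⟩ := hex
  -- `S * P k` is positive
  have hSP : 0 < S * P k := by
    rcases lt_or_eq_of_le (mul_nonneg hS0 (hP0 k)) with h | h
    · exact h
    · exfalso
      have h3 : ∀ θ : ℝ, W A (wt (T k)) θ = 0 := by
        intro θ
        have h4 := hsup k θ
        rw [← h] at h4
        have h5 : ‖W A (wt (T k)) θ‖ ^ (2 * q) = 0 := le_antisymm h4 (by positivity)
        have h6 : ‖W A (wt (T k)) θ‖ = 0 := by
          exact pow_eq_zero_iff (by omega) |>.1 h5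
        exact norm_eq_zero.1 h6
      obtain ⟨l, hl⟩ := hne
      have h4 := key_coeff_zero A (wt (T k)) h3 l hl
      have h5 := key_one_le_norm_wt (T k) l
      rw [h4, norm_zero] at h5
      linarith
  clear_value c
  set D : ℝ := (S * P k) ^ ((1 : ℝ) / ((2 * q : ℕ) : ℝ)) with hD
  have hD0 : 0 < D := Real.rpow_pos_of_pos hSP _
  have h2q : (2 * q : ℕ) ≠ 0 := by omega
  have hDpow : D ^ (2 * q) = S * P k := by
    rw [hD, one_div]
    exact Real.rpow_inv_natCast_pow hSP.le h2q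
  have hWD : ∀ θ : ℝ, ‖W A (wt (T k)) θ‖ ≤ D := by
    intro θ
    have h3 := hsup k θ
    rw [← hDpow] at h3
    exact le_of_pow_le_pow_left₀ h2q hD0.le h3
  have hQD : c * D ≤ Q k := by
    have h3 : (c * D) ^ (2 * q) ≤ Q k ^ (2 * q) := by
      rw [mul_pow, hDpow]
      exact hk
    exact le_of_pow_le_pow_left₀ h2q (hQ0 k) h3
  refine ⟨vt (T k), rtp_vt (T k), fun l => wt (T k) l / D, ?_, ?_⟩
  · intro θ
    have h3 : W A (fun l => wt (T k) l / (D : ℂ)) θ = W A (wt (T k)) θ / D := by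
      unfold W
      rw [Finset.sum_div]
      apply Finset.sum_congr rfl
      intro l _
      ring
    rw [h3, norm_div, Complex.norm_real, Real.norm_of_nonneg hD0.le, div_le_one hD0]
    exact hWD θ
  · have h3 : ∑ l ∈ A, wt (T k) l / (D : ℂ) * Complex.exp (Complex.I * (vt (T k) l : ℝ)) =
        (∑ l ∈ A, wt (T k) l * Complex.exp (Complex.I * (vt (T k) l : ℝ))) / D := by
      rw [Finset.sum_div]
      apply Finset.sum_congr rfl
      intro l _
      ring
    rw [h3, norm_div, Complex.norm_real, Real.norm_of_nonneg hD0.le, le_div_iff₀ hD0]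
    exact hQD

end Pool.Agent.Lib.MP_6d8312_an
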