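import Pool.Agent.Lib.MP_6d8312_an.Mg.G012
import Pool.Agent.Lib.MP_6d8312_an.Decay2
import Pool.Agent.Lib.MP_6d8312_an.Cont

/-! # Exponential growth implies analyticity -/

set_option autoImplicit false

noncomputable section

namespace Pool.Agent.Lib.MP_6d8312_an

theorem analyticitySet_of_growth {Λ : Set ℤ} (hG : Growth Λ) : AnalyticitySet Λ := by
  intro F hF
  obtain ⟨R, r, C, hr, -, -, hB⟩ := exists_bdd Λ F hF
  have hcont : ∀ x : ℝ, |x| < r → ContinuousAt F x := continuousAt_of_bdd hG hB
  -- the parameters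
  have he : (0 : ℝ) < Real.exp 1 := Real.exp_pos 1
  have he1 : (1 : ℝ) < Real.exp 1 := by
    have := Real.add_one_lt_exp (x := 1) one_ne_zero
    linarith
  set b : ℝ := r / Real.exp 1 with hb
  have hb0 : 0 < b := div_pos hr he
  have hbr : b < r := by
    rw [hb, div_lt_iff₀ he]
    nlinarith
  have hbs : b * Real.exp 1 ≤ r := by
    rw [hb, div_mul_cancel₀ _ he.ne']
  have hS : SinBdd Λ F R 1 b C := sinBdd_of_bdd hB hcont hb0.le hbr hbs
  have hc : Continuous (fun x : ℝ => F (b * Real.sin x)) := by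
    rw [continuous_iff_continuousAt]
    intro x
    have h1 : |b * Real.sin x| < r := by
      rw [abs_mul, abs_of_pos hb0]
      have := Real.abs_sin_le_one x
      nlinarith
    have h2 : ContinuousAt (fun x : ℝ => b * Real.sin x) x := by fun_prop
    exact ContinuousAt.comp (f := fun x : ℝ => b * Real.sin x) (hcont _ h1) h2
  obtain ⟨C', c, hcpos, h⟩ := cf_decay hG one_pos hc hS
  exact analyticAt_of_cf_decay F b hb0 hc C' c hcpos h

end Pool.Agent.Lib.MP_6d8312_an
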