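import Pool.Agent.Lib.MP_6d8312_an.Grow
import Pool.Agent.Lib.MP_6d8312_an.Main1

/-! # The main theorem -/

set_option autoImplicit false

noncomputable section

namespace Pool.Agent.Lib.MP_6d8312_an

theorem analyticitySet_of_mesh (Λ : Set ℤ) (h : ∀ R : ℝ, ∃ (s N : ℕ) (ρ : Fin s → ℤ),
    R ≤ ((Λ ∩ Mesh ρ N).ncard : ℝ) ∧
    Real.exp (200000 * (Real.log (s * Real.log (N + 2) + 2)) ^ 2) ≤ ((Λ ∩ Mesh ρ N).ncard : ℝ)) :
    AnalyticitySet Λ :=
  analyticitySet_of_growth (growth_of_mesh Λ h)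

end Pool.Agent.Lib.MP_6d8312_an
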