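import Pool.Agent.Lib.MP_6d8312_an.Psi
import Pool.Agent.Lib.MP_6d8312_an.Defic2

/-! # The moment estimate -/

set_option autoImplicit false

noncomputable section

namespace Pool.Agent.Lib.MP_6d8312_an

private def momSig (q : ℕ) (i : Fin (2 * q)) : ℝ := if (i : ℕ) < q then -1 else 1

private lemma momSig_or (q : ℕ) (i : Fin (2 * q)) : momSig q i = 1 ∨ momSig q i = -1 := by
  unfold momSig
  split_ifs
  · exact Or.inr rfl
  · exact Or.inl rfl

private lemma mom_norm (q : ℕ) (z : ℂ) : ((‖z‖ ^ (2 * q) : ℝ) : ℂ) =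
    ∏ i : Fin (2 * q), (if (i : ℕ) < q then z else (starRingEnd ℂ) z) := by
  rw [Fin.prod_univ_eq_prod_range (fun i => if i < q then z else (starRingEnd ℂ) z) (2 * q),
    two_mul, Finset.prod_range_add]
  have h1 : ∏ x ∈ Finset.range q, (if x < q then z else (starRingEnd ℂ) z) = z ^ q := by
    rw [Finset.prod_congr rfl (g := fun _ => z)]
    · simp
    · intro x hx
      rw [if_pos (Finset.mem_range.1 hx)]
  have h2 : ∏ x ∈ Finset.range q, (if q + x < q then z else (starRingEnd ℂ) z) =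
      (starRingEnd ℂ) z ^ q := by
    rw [Finset.prod_congr rfl (g := fun _ => (starRingEnd ℂ) z)]
    · simp
    · intro x _
      rw [if_neg (by omega)]
  rw [h1, h2, ← mul_pow, Complex.mul_conj', ← two_mul, pow_mul]
  push_cast
  rfl

private lemma mom_conj_e (x : ℝ) : (starRingEnd ℂ) (e x) = e (-x) := by
  unfold e
  rw [← Complex.exp_conj]
  congr 1
  simp only [map_mul, Complex.conj_I, Complex.conj_ofReal, map_ofNat]
  push_cast
  ring

private lemma mom_factor {K : ℕ} (A : Finset ℤ) (q : ℕ) (t : Fin K → ℝ) (θ : ℝ)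
    (i : Fin (2 * q)) :
    (if (i : ℕ) < q then W A (wt t) θ else (starRingEnd ℂ) (W A (wt t) θ)) =
      ∑ l ∈ A, e (-(momSig q i) * (l * θ)) * ∏ j : Fin K, (1 + (momSig q i : ℂ) * Complex.I *
        (Real.cos (2 * Real.pi * (l * t j)) : ℝ)) := by
  unfold W momSig wt
  split_ifs with h
  · apply Finset.sum_congr rfl
    intro l _
    rw [mul_comm]
    congr 1
    · congr 1
      ring
    · apply Finset.prod_congr rfl
      intro j _
      push_cast
      ring
  · rw [map_sum]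
    apply Finset.sum_congr rfl
    intro l _
    rw [map_mul, mul_comm, mom_conj_e, map_prod]
    congr 1
    · congr 1
      ring
    · apply Finset.prod_congr rfl
      intro j _
      simp only [map_sub, map_one, map_mul, Complex.conj_I, Complex.conj_ofReal]
      push_cast
      ring

private lemma mom_sum_lt (A : Finset ℤ) (q M : ℕ) (hM0 : 0 < M)
    (hM : ∀ l ∈ A, 4 * (q : ℤ) * |l| < M) (τ : Fin (2 * q) → ℤ) (hτ : ∀ i, τ i ∈ A) :
    2 * ∑ i, |τ i| < M := by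
  rcases Nat.eq_zero_or_pos q with hq | hq
  · subst hq
    simp only [Nat.mul_zero]
    have : ∑ i : Fin (2 * 0), |τ i| = 0 := by
      apply Finset.sum_eq_zero
      intro i _
      exact absurd i.2 (by omega)
    rw [this]
    omega
  · have h1 : ∑ i : Fin (2 * q), 4 * (q : ℤ) * |τ i| < ∑ _i : Fin (2 * q), (M : ℤ) := by
      apply Finset.sum_lt_sum_of_nonempty
      · exact ⟨⟨0, by omega⟩, Finset.mem_univ _⟩
      · intro i _
        exact hM _ (hτ i)
    rw [← Finset.mul_sum, Finset.sum_const, Finset.card_univ, Fintype.card_fin,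
      nsmul_eq_mul] at h1
    push_cast at h1
    have hq' : (0 : ℤ) < 2 * q := by exact_mod_cast (by omega : 0 < 2 * q)
    have h2 : (2 * (q : ℤ)) * (2 * ∑ i, |τ i|) < (2 * (q : ℤ)) * M := by
      calc (2 * (q : ℤ)) * (2 * ∑ i, |τ i|) = 4 * (q : ℤ) * ∑ i, |τ i| := by ring
        _ < _ := h1
    exact lt_of_mul_lt_mul_left h2 hq'.le

open Classical in
theorem moment (A : Finset ℤ) (q K M g : ℕ) (hM0 : 0 < M) (hM : ∀ l ∈ A, 4 * (q : ℤ) * |l| < M)
    (hg : ∀ D ⊆ A, D.card ≤ 2 * q → (A.filter (fun l => l ∈ SpanD D)).card ≤ g) (θ : ℝ) :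
    (1 / (M : ℝ)) ^ K * ∑ k : Fin K → Fin M,
      ‖W A (wt (fun j => ((k j : ℕ) : ℝ) / M)) θ‖ ^ (2 * q) ≤
      ((A.card : ℝ) + 2 ^ K * g) ^ (2 * q) := by
  set σ : Fin (2 * q) → ℝ := momSig q with hσ
  set G : (Fin (2 * q) → ℤ) → ℕ → ℂ := fun τ k => ∏ i, (1 + (σ i : ℂ) * Complex.I *
      (Real.cos (2 * Real.pi * (τ i * ((k : ℝ) / M))) : ℝ)) with hG
  set E : (Fin (2 * q) → ℤ) → ℂ := fun τ => ∏ i, e (-(σ i) * (τ i * θ)) with hE
  have hEn : ∀ τ, ‖E τ‖ = 1 := by
    intro τ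
    simp only [hE]
    rw [norm_prod]
    apply Finset.prod_eq_one
    intro i _
    exact norm_e _
  -- expansion
  have hexp : ∀ k : Fin K → Fin M,
      ((‖W A (wt (fun j => ((k j : ℕ) : ℝ) / M)) θ‖ ^ (2 * q) : ℝ) : ℂ) =
        ∑ τ ∈ Fintype.piFinset (fun _ : Fin (2 * q) => A), E τ * ∏ j : Fin K, G τ (k j) := by
    intro k
    rw [mom_norm]
    rw [Finset.prod_congr rfl (fun i _ => mom_factor A q _ θ i), Finset.prod_univ_sum]
    apply Finset.sum_congr rfl
    intro τ _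
    rw [Finset.prod_mul_distrib, Finset.prod_comm]
  have havg : (((1 / (M : ℝ)) ^ K * ∑ k : Fin K → Fin M,
      ‖W A (wt (fun j => ((k j : ℕ) : ℝ) / M)) θ‖ ^ (2 * q) : ℝ) : ℂ) =
      ∑ τ ∈ Fintype.piFinset (fun _ : Fin (2 * q) => A),
        E τ * ((1 / (M : ℂ)) * ∑ k ∈ Finset.range M, G τ k) ^ K := by
    rw [Complex.ofReal_mul, Complex.ofReal_sum, Finset.sum_congr rfl (fun k _ => hexp k),
      Finset.sum_comm, Finset.mul_sum]
    apply Finset.sum_congr rfl
    intro τ _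
    rw [mul_pow, Finset.sum_range, Fintype.sum_pow, ← Finset.mul_sum]
    push_cast
    ring
  have hnn : 0 ≤ (1 / (M : ℝ)) ^ K * ∑ k : Fin K → Fin M,
      ‖W A (wt (fun j => ((k j : ℕ) : ℝ) / M)) θ‖ ^ (2 * q) := by positivity
  have hX : (1 : ℝ) ≤ 2 ^ K := one_le_pow₀ (by norm_num)
  calc (1 / (M : ℝ)) ^ K * ∑ k : Fin K → Fin M,
      ‖W A (wt (fun j => ((k j : ℕ) : ℝ) / M)) θ‖ ^ (2 * q)
      = ‖(((1 / (M : ℝ)) ^ K * ∑ k : Fin K → Fin M,
      ‖W A (wt (fun j => ((k j : ℕ) : ℝ) / M)) θ‖ ^ (2 * q) : ℝ) : ℂ)‖ := by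
        rw [Complex.norm_real, Real.norm_of_nonneg hnn]
    _ ≤ ∑ τ ∈ Fintype.piFinset (fun _ : Fin (2 * q) => A),
        ‖E τ * ((1 / (M : ℂ)) * ∑ k ∈ Finset.range M, G τ k) ^ K‖ := by
        rw [havg]
        exact norm_sum_le _ _
    _ ≤ ∑ τ ∈ Fintype.piFinset (fun _ : Fin (2 * q) => A), ((2 : ℝ) ^ K) ^ (2 * q - dimF τ) := by
        apply Finset.sum_le_sum
        intro τ hτ
        rw [norm_mul, hEn, one_mul, norm_pow, ← pow_mul, mul_comm K, pow_mul]
        apply pow_le_pow_left₀ (norm_nonneg _)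
        exact psi_bound τ σ (momSig_or q) M
          (mom_sum_lt A q M hM0 hM τ (fun i => Fintype.mem_piFinset.1 hτ i))
    _ ≤ _ := deficiency_sum A (2 * q) g (2 ^ K) hX hg (2 * q) le_rfl

end Pool.Agent.Lib.MP_6d8312_an
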