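import Pool.Agent.Lib.MP_6d8312_an.Iter

/-! # Numerical part -/

set_option autoImplicit false

noncomputable section

namespace Pool.Agent.Lib.MP_6d8312_an

/-- Numerical part. -/
theorem succ_of_card (A : Finset ℤ) (h0 : (0 : ℤ) ∉ A) (s N : ℕ) (K₀ : ℕ) (hc : Ctrl A s N)
    (hK₀ : (K₀ : ℝ) ≤ Real.log (s * Real.log (N + 2) + 2))
    (h : Real.exp (100000 * (Real.log (s * Real.log (N + 2) + 2)) ^ 2) ≤ A.card) :
    ∃ K : ℕ, K₀ ≤ K ∧ Succ A K := by
  have hl2a := Real.log_two_gt_d9
  have hl2b := Real.log_two_lt_d9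
  have hN2 : (2 : ℝ) ≤ (N : ℝ) + 2 := by
    have : (0 : ℝ) ≤ N := Nat.cast_nonneg N
    linarith
  have hlogN : Real.log 2 ≤ Real.log ((N : ℝ) + 2) := Real.log_le_log (by norm_num) hN2
  have hs0 : (0 : ℝ) ≤ s := Nat.cast_nonneg s
  set X : ℝ := s * Real.log (N + 2) + 2 with hX
  set L : ℝ := Real.log X with hL
  have hsl : 0 ≤ (s : ℝ) * Real.log (N + 2) := mul_nonneg hs0 (by linarith)
  have hX2 : 2 ≤ X := by linarith
  have hX0 : 0 < X := by linarith
  have hL2 : Real.log 2 ≤ L := Real.log_le_log (by norm_num) hX2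
  have hL0 : 0.69 ≤ L := by linarith
  have hsX : (s : ℝ) * Real.log (N + 2) ≤ X := by linarith
  have hsX' : (s : ℝ) ≤ 2 * X := by
    have h1 : (s : ℝ) * (1 / 2) ≤ s * Real.log (N + 2) :=
      mul_le_mul_of_nonneg_left (by linarith) hs0
    linarith
  -- the parameters
  set q : ℕ := ⌈100 * X ^ 2⌉₊ with hq
  have hX4 : 4 ≤ X ^ 2 := by nlinarith
  have hq1 : 100 * X ^ 2 ≤ q := Nat.le_ceil _
  have hq2 : (q : ℝ) ≤ 101 * X ^ 2 := by
    have := (Nat.ceil_lt_add_one (a := 100 * X ^ 2) (by positivity)).le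
    rw [← hq] at this
    linarith
  have hqpos : (0 : ℝ) < q := by linarith
  have hqpos' : 0 < q := by exact_mod_cast hqpos
  set K : ℕ := ⌈64 * Real.log (8 * q + 1)⌉₊ with hK
  have hK1 : 64 * Real.log (8 * q + 1) ≤ K := Nat.le_ceil _
  have hlog8q : 0 ≤ Real.log (8 * (q : ℝ) + 1) := Real.log_nonneg (by linarith)
  have hK2 : (K : ℝ) ≤ 64 * Real.log (8 * q + 1) + 1 := by
    have := (Nat.ceil_lt_add_one (a := 64 * Real.log (8 * q + 1)) (by positivity)).le
    rwa [← hK] at this
  have hlogX : Real.log (X ^ 2) = 2 * L := by rw [Real.log_pow]; norm_num; rfl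
  have hlog8q' : Real.log (8 * (q : ℝ) + 1) ≤ 12 * L := by
    have h1 : 8 * (q : ℝ) + 1 ≤ 2 ^ 10 * X ^ 2 := by
      norm_num
      linarith
    have h2 := Real.log_le_log (by linarith) h1
    rw [Real.log_mul (by norm_num) (by positivity), Real.log_pow, hlogX] at h2
    push_cast at h2
    linarith
  have hK3 : (K : ℝ) ≤ 770 * L := by linarith
  have hlog4q : Real.log (4 * (q : ℝ)) ≤ Real.log (8 * (q : ℝ) + 1) :=
    Real.log_le_log (by linarith) (by linarith)
  have hlog4q1 : 1 ≤ Real.log (4 * (q : ℝ)) := by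
    rw [Real.le_log_iff_exp_le (by linarith)]
    have := Real.exp_one_lt_d9
    linarith
  have hKK₀ : K₀ ≤ K := by
    have h1 : L ≤ Real.log (8 * (q : ℝ) + 1) := by
      apply Real.log_le_log hX0
      nlinarith
    have h2 : (K₀ : ℝ) ≤ K := by linarith
    exact_mod_cast h2
  refine ⟨K, hKK₀, ?_⟩
  have hcard0 : (0 : ℝ) < A.card := lt_of_lt_of_le (Real.exp_pos _) h
  have hne : A.Nonempty := by
    rw [← Finset.card_pos]
    exact_mod_cast hcard0
  -- first step
  have hlog1312 : 1 / 13 ≤ Real.log (13 / 12) := by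
    have h1 := Real.one_sub_inv_le_log_of_pos (x := 13 / 12) (by norm_num)
    norm_num at h1 ⊢
    linarith
  have hstep : ((4 * q * N + 1 : ℕ) : ℝ) ^ s ≤ (13 / 12 : ℝ) ^ (2 * q * K) := by
    have h1 : (0 : ℝ) < ((4 * q * N + 1 : ℕ) : ℝ) := by positivity
    rw [← Real.log_le_log_iff (by positivity) (by positivity), Real.log_pow, Real.log_pow]
    push_cast
    have hN0 : (0 : ℝ) ≤ N := Nat.cast_nonneg N
    have h2 : Real.log (4 * (q : ℝ) * N + 1) ≤ Real.log (4 * q) + Real.log (N + 2) := by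
      rw [← Real.log_mul (by positivity) (by positivity)]
      apply Real.log_le_log (by positivity)
      nlinarith
    have h3 : (s : ℝ) * Real.log (4 * (q : ℝ) * N + 1) ≤ 2 * X * Real.log (4 * q) + X := by
      calc (s : ℝ) * Real.log (4 * (q : ℝ) * N + 1)
          ≤ s * (Real.log (4 * q) + Real.log (N + 2)) := mul_le_mul_of_nonneg_left h2 hs0
        _ = s * Real.log (4 * q) + s * Real.log (N + 2) := by ring
        _ ≤ 2 * X * Real.log (4 * q) + X :=
            add_le_add (mul_le_mul_of_nonneg_right hsX' (by linarith)) hsX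
    have h4 : 2 * X * Real.log (4 * q) + X ≤ 3 * X * Real.log (4 * q) := by
      nlinarith
    have h5 : 64 * Real.log (4 * q) ≤ K := by linarith
    have h6 : 3 * X * Real.log (4 * q) ≤ 2 * (q : ℝ) * K * Real.log (13 / 12) := by
      have hl0 : 0 < Real.log (4 * (q : ℝ)) := by linarith
      calc 3 * X * Real.log (4 * q) ≤ 2 * (100 * X ^ 2) * (64 * Real.log (4 * q)) * (1 / 13) := by
            have : 3 * X ≤ 2 * (100 * X ^ 2) * 64 * (1 / 13) := by nlinarith
            nlinarith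
        _ ≤ 2 * (q : ℝ) * K * Real.log (13 / 12) := by
            apply mul_le_mul _ hlog1312 (by norm_num) (by positivity)
            apply mul_le_mul _ h5 (by positivity) (by positivity)
            linarith
    linarith
  rcases step A h0 hne s N q K hqpos' hc hstep with hS | ⟨A', hA', hcardA', hcA'⟩
  · exact hS
  -- the iteration
  set j : ℕ := Nat.clog 2 (2 * q) with hj
  have hj1 : 2 * q ≤ 2 ^ (j + 3) := by
    calc 2 * q ≤ 2 ^ j := Nat.le_pow_clog (by norm_num) _
      _ ≤ 2 ^ (j + 3) := Nat.pow_le_pow_right (by norm_num) (by omega)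
  have hj2 : (j : ℝ) ≤ 15 * L + 1 := by
    have h1 : 2 ^ (j - 1) ≤ 2 * q := by
      have := Nat.pow_pred_clog_lt_self (b := 2) (by norm_num) (x := 2 * q) (by omega)
      rw [← hj] at this
      exact this.le
    have h2 : ((2 : ℝ)) ^ (j - 1) ≤ 2 ^ 8 * X ^ 2 := by
      have h3 : ((2 ^ (j - 1) : ℕ) : ℝ) ≤ ((2 * q : ℕ) : ℝ) := by exact_mod_cast h1
      push_cast at h3
      norm_num
      linarith
    have h3 := Real.log_le_log (by positivity) h2
    rw [Real.log_mul (by norm_num) (by positivity), Real.log_pow, Real.log_pow, hlogX] at h3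
    have h4 : (j : ℝ) ≤ ((j - 1 : ℕ) : ℝ) + 1 := by
      have : j ≤ (j - 1) + 1 := by omega
      exact_mod_cast this
    push_cast at h3
    have h5 : ((j - 1 : ℕ) : ℝ) * Real.log 2 ≤ 10 * L := by linarith
    have h6 : ((j - 1 : ℕ) : ℝ) ≤ 15 * L := by
      have h7 : (0 : ℝ) ≤ ((j - 1 : ℕ) : ℝ) := Nat.cast_nonneg _
      have h8 : ((j - 1 : ℕ) : ℝ) * (2 / 3) ≤ ((j - 1 : ℕ) : ℝ) * Real.log 2 :=
        mul_le_mul_of_nonneg_left (by linarith) h7
      linarith
    linarith
  have hbig : (2 : ℝ) ^ (K * (j + 2)) * 9 ^ 8 ≤ Real.exp (100000 * L ^ 2) := by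
    rw [← Real.log_le_iff_le_exp (by positivity), Real.log_mul (by positivity) (by norm_num),
      Real.log_pow, Real.log_pow]
    push_cast
    have h9 : Real.log 9 ≤ 4 * Real.log 2 := by
      have := Real.log_le_log (by norm_num) (show (9 : ℝ) ≤ 2 ^ 4 by norm_num)
      rw [Real.log_pow] at this
      push_cast at this
      exact this
    have h10 : (K : ℝ) * (j + 2) * Real.log 2 ≤ (770 * L) * (21 * L) * 1 := by
      apply mul_le_mul _ (by linarith) (by linarith) (by positivity)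
      apply mul_le_mul hK3 _ (by positivity) (by positivity)
      linarith
    nlinarith
  refine (iterate K j A' (2 * q) (fun h => h0 (hA' h)) hcA' hj1 ?_ ?_).mono hA'
  · push_cast
    have : (4 : ℝ) * (2 * q) + 1 = 8 * q + 1 := by ring
    rw [this]
    exact hK1
  · by_contra hcon
    push Not at hcon
    have h1 : A.card < 2 ^ (K * (j + 2)) * 9 ^ 8 := by
      calc A.card < 2 ^ K * A'.card := hcardA'
        _ ≤ 2 ^ K * (2 ^ (K * (j + 1)) * 9 ^ 8) := Nat.mul_le_mul_left _ hcon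
        _ = 2 ^ (K * (j + 2)) * 9 ^ 8 := by
          rw [← mul_assoc, ← pow_add]
          congr 2
          ring
    have h2 : (A.card : ℝ) < (2 : ℝ) ^ (K * (j + 2)) * 9 ^ 8 := by exact_mod_cast h1
    linarith

end Pool.Agent.Lib.MP_6d8312_an
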