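import Pool.Agent.Lib.MP_6d8312_an.CDefs

/-! # The numerator -/

set_option autoImplicit false

noncomputable section

namespace Pool.Agent.Lib.MP_6d8312_an

theorem numer1_point (c : ℝ) (hc : |c| ≤ 1) :
    1 + 11 / 32 * c ^ 2 ≤ Real.cos (c / 2) + c * Real.sin (c / 2) := by
  have h1 : 1 - (c / 2) ^ 2 / 2 ≤ Real.cos (c / 2) := Real.one_sub_sq_div_two_le_cos
  have h2 : 15 / 32 * c ^ 2 ≤ c * Real.sin (c / 2) := by
    have h3 : ∀ d : ℝ, 0 ≤ d → d ≤ 1 → 15 / 32 * d ^ 2 ≤ d * Real.sin (d / 2) := by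
      intro d hd hd1
      rcases hd.eq_or_lt with rfl | hd
      · simp
      · have h4 := Real.sin_gt_sub_cube (x := d / 2) (by linarith)
        have h5 : 15 / 32 * d ≤ Real.sin (d / 2) := by
          have h6 : d ^ 3 ≤ d := by nlinarith [mul_pos hd hd, mul_nonneg hd.le (sub_nonneg.2 hd1)]
          have h7 : (d / 2) ^ 3 / 6 = d ^ 3 / 48 := by ring
          rw [h7] at h4
          linarith
        nlinarith
    have h4 : c * Real.sin (c / 2) = |c| * Real.sin (|c| / 2) := by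
      rcases abs_cases c with ⟨h, _⟩ | ⟨h, _⟩
      · rw [h]
      · rw [h, neg_div, Real.sin_neg]
        ring
    rw [h4, ← sq_abs]
    exact h3 _ (abs_nonneg c) hc
  have h3 : (c / 2) ^ 2 / 2 = c ^ 2 / 8 := by ring
  rw [h3] at h1
  linarith

theorem numer1_sum (M : ℕ) (hM : 3 ≤ M) :
    ∑ k ∈ Finset.range M, Real.cos (2 * Real.pi * ((k : ℝ) / M)) ^ 2 = M / 2 := by
  have hM0 : M ≠ 0 := by omega
  have hprim := Complex.isPrimitiveRoot_exp M hM0
  set ω : ℂ := Complex.exp (2 * Real.pi * Complex.I / M) with hω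
  have hne : ω ^ 2 ≠ 1 := by
    intro h
    have := (hprim.pow_eq_one_iff_dvd 2).1 h
    have := Nat.le_of_dvd (by norm_num) this
    omega
  have hgeom : ∑ k ∈ Finset.range M, (ω ^ 2) ^ k = 0 := by
    have h1 := geom_sum_mul (ω ^ 2) M
    rw [← pow_mul, mul_comm 2 M, pow_mul, hprim.pow_eq_one, one_pow, sub_self] at h1
    exact (mul_eq_zero.1 h1).resolve_right (sub_ne_zero.2 hne)
  have hcos : ∀ k : ℕ, Real.cos (2 * (2 * Real.pi * ((k : ℝ) / M))) = ((ω ^ 2) ^ k).re := by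
    intro k
    rw [hω, ← Complex.exp_nat_mul, ← Complex.exp_nat_mul]
    have h1 : (k : ℂ) * (((2 : ℕ) : ℂ) * (2 * Real.pi * Complex.I / M)) =
        ((2 * (2 * Real.pi * ((k : ℝ) / M)) : ℝ) : ℂ) * Complex.I := by
      push_cast
      ring
    rw [h1, Complex.exp_ofReal_mul_I_re]
  have h2 : ∀ k ∈ Finset.range M, Real.cos (2 * Real.pi * ((k : ℝ) / M)) ^ 2 =
      1 / 2 + ((ω ^ 2) ^ k).re / 2 := by
    intro k _
    rw [Real.cos_sq, hcos]
  rw [Finset.sum_congr rfl h2, Finset.sum_add_distrib, Finset.sum_const, Finset.card_range,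
    ← Finset.sum_div, ← Complex.re_sum, hgeom]
  simp
  ring

/-- One variable. -/
theorem rho_bound (M : ℕ) (hM : 3 ≤ M) :
    (7 / 6 : ℝ) ≤ ‖(1 / (M : ℂ)) * ∑ k ∈ Finset.range M,
      (1 - Complex.I * (Real.cos (2 * Real.pi * ((k : ℝ) / M)) : ℝ)) *
        Complex.exp (Complex.I * ((1 / 2 * Real.cos (2 * Real.pi * ((k : ℝ) / M)) : ℝ) : ℂ))‖ := by
  have hM0 : (0 : ℝ) < M := by
    have : 0 < M := by omega
    exact_mod_cast this
  refine le_trans ?_ (Complex.re_le_norm _)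
  have h1 : (1 / (M : ℂ)) = ((1 / (M : ℝ) : ℝ) : ℂ) := by push_cast; rfl
  rw [h1, Complex.re_ofReal_mul, Complex.re_sum]
  have h2 : ∀ c : ℝ, ((1 - Complex.I * (c : ℝ)) *
      Complex.exp (Complex.I * ((1 / 2 * c : ℝ) : ℂ))).re =
      Real.cos (c / 2) + c * Real.sin (c / 2) := by
    intro c
    have h3 : Complex.I * ((1 / 2 * c : ℝ) : ℂ) = ((c / 2 : ℝ) : ℂ) * Complex.I := by
      push_cast
      ring
    rw [h3, Complex.mul_re, Complex.exp_ofReal_mul_I_re, Complex.exp_ofReal_mul_I_im]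
    simp
  have h3 : ∑ k ∈ Finset.range M, (1 + 11 / 32 * Real.cos (2 * Real.pi * ((k : ℝ) / M)) ^ 2) ≤
      ∑ k ∈ Finset.range M, ((1 - Complex.I * (Real.cos (2 * Real.pi * ((k : ℝ) / M)) : ℝ)) *
        Complex.exp (Complex.I * ((1 / 2 * Real.cos (2 * Real.pi * ((k : ℝ) / M)) : ℝ) : ℂ))).re := by
    apply Finset.sum_le_sum
    intro k _
    rw [h2]
    exact numer1_point _ (Real.abs_cos_le_one _)
  rw [Finset.sum_add_distrib, ← Finset.mul_sum, numer1_sum M hM, Finset.sum_const,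
    Finset.card_range, nsmul_eq_mul, mul_one] at h3
  calc (7 / 6 : ℝ) ≤ 1 / (M : ℝ) * ((M : ℝ) + 11 / 32 * (M / 2)) := by
        have : 1 / (M : ℝ) * ((M : ℝ) + 11 / 32 * (M / 2)) = 75 / 64 := by
          field_simp
          ring
        rw [this]
        norm_num
    _ ≤ _ := mul_le_mul_of_nonneg_left h3 (by positivity)

end Pool.Agent.Lib.MP_6d8312_an
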