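import Pool.Agent.Lib.MP_6d8312_an.CDefs

/-! # Riesz product type estimate -/

set_option autoImplicit false

noncomputable section

namespace Pool.Agent.Lib.MP_6d8312_an

/-- one factor of the Riesz product -/
def psiFac {m : ℕ} (τ : Fin m → ℤ) (σ : Fin m → ℝ) (M k : ℕ) (i : Fin m) : ℂ :=
  1 + (σ i : ℂ) * Complex.I * (Real.cos (2 * Real.pi * (τ i * ((k : ℝ) / M))) : ℝ)

/-- the twisted average over a subset of the factors -/
def psiS {m : ℕ} (τ : Fin m → ℤ) (σ : Fin m → ℝ) (M : ℕ) (J : Finset (Fin m)) (ν : ℤ) : ℂ :=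
  (1 / (M : ℂ)) * ∑ k ∈ Finset.range M, e (ν * ((k : ℝ) / M)) * ∏ i ∈ J, psiFac τ σ M k i

theorem psi_e_add (x y : ℝ) : e (x + y) = e x * e y := by
  unfold e
  rw [← Complex.exp_add]
  congr 1
  push_cast
  ring

theorem psi_norm_e (x : ℝ) : ‖e x‖ = 1 := by
  unfold e
  have : (2 * Real.pi * x * Complex.I : ℂ) = ((2 * Real.pi * x : ℝ) : ℂ) * Complex.I := by
    push_cast; ring
  rw [this, Complex.norm_exp_ofReal_mul_I]

theorem psi_cos (x : ℝ) :
    ((Real.cos (2 * Real.pi * x) : ℝ) : ℂ) = (1 / 2) * (e x + e (-x)) := by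
  unfold e
  rw [Complex.ofReal_cos, Complex.cos]
  push_cast
  have h1 : (2 * Real.pi * -(x : ℂ) * Complex.I : ℂ) = -(2 * Real.pi * x) * Complex.I := by ring
  rw [h1]
  ring

theorem psi_insert {m : ℕ} (τ : Fin m → ℤ) (σ : Fin m → ℝ) (M : ℕ) (J : Finset (Fin m))
    (i : Fin m) (hi : i ∉ J) (ν : ℤ) :
    psiS τ σ M (insert i J) ν = psiS τ σ M J ν +
      ((σ i : ℂ) * Complex.I / 2) * (psiS τ σ M J (ν + τ i) + psiS τ σ M J (ν + -τ i)) := by
  unfold psiS
  have h1 : ∀ k ∈ Finset.range M, e (ν * ((k : ℝ) / M)) * ∏ j ∈ insert i J, psiFac τ σ M k j =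
      e (ν * ((k : ℝ) / M)) * ∏ j ∈ J, psiFac τ σ M k j + ((σ i : ℂ) * Complex.I / 2) *
      (e (((ν + τ i : ℤ) : ℝ) * ((k : ℝ) / M)) * ∏ j ∈ J, psiFac τ σ M k j +
        e (((ν + -τ i : ℤ) : ℝ) * ((k : ℝ) / M)) * ∏ j ∈ J, psiFac τ σ M k j) := by
    intro k _
    rw [Finset.prod_insert hi]
    have h2 : e (((ν + τ i : ℤ) : ℝ) * ((k : ℝ) / M)) =
        e (ν * ((k : ℝ) / M)) * e (τ i * ((k : ℝ) / M)) := by
      rw [← psi_e_add]; congr 1; push_cast; ring
    have h3 : e (((ν + -τ i : ℤ) : ℝ) * ((k : ℝ) / M)) =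
        e (ν * ((k : ℝ) / M)) * e (-(τ i * ((k : ℝ) / M))) := by
      rw [← psi_e_add]; congr 1; push_cast; ring
    rw [h2, h3]
    conv_lhs => rw [psiFac, psi_cos]
    ring
  rw [Finset.sum_congr rfl h1, Finset.sum_add_distrib, ← Finset.mul_sum, Finset.sum_add_distrib]
  ring

theorem psi_prod_norm_le_card {M : ℕ} (hM : 0 < M) (ν : ℤ) :
    ‖(1 / (M : ℂ)) * ∑ k ∈ Finset.range M, e (ν * ((k : ℝ) / M))‖ ≤ 1 := by
  have hM' : (0 : ℝ) < M := by exact_mod_cast hM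
  rw [norm_mul]
  have h1 : ‖∑ k ∈ Finset.range M, e (ν * ((k : ℝ) / M))‖ ≤ M := by
    refine (norm_sum_le _ _).trans ?_
    simp [psi_norm_e]
  have h2 : ‖(1 / (M : ℂ))‖ = 1 / M := by simp
  rw [h2]
  calc 1 / (M : ℝ) * ‖∑ k ∈ Finset.range M, e (ν * ((k : ℝ) / M))‖ ≤ 1 / (M : ℝ) * M := by gcongr
    _ = 1 := by field_simp

theorem psi_geom {M : ℕ} (hM : 0 < M) (ν : ℤ) (hν : ¬ (M : ℤ) ∣ ν) :
    ∑ k ∈ Finset.range M, e (ν * ((k : ℝ) / M)) = 0 := by
  have hM0 : (M : ℂ) ≠ 0 := by exact_mod_cast hM.ne'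
  have hMr : (M : ℝ) ≠ 0 := by exact_mod_cast hM.ne'
  have hpi : (2 * Real.pi * Complex.I : ℂ) ≠ 0 := Complex.two_pi_I_ne_zero
  have h1 : ∀ k ∈ Finset.range M, e (ν * ((k : ℝ) / M)) = e (ν / M) ^ k := by
    intro k _
    unfold e
    rw [← Complex.exp_nat_mul]
    congr 1
    push_cast
    ring
  rw [Finset.sum_congr rfl h1]
  have hne : e (ν / M) ≠ 1 := by
    unfold e
    rw [Ne, Complex.exp_eq_one_iff]
    rintro ⟨n, hn⟩
    apply hν
    refine ⟨n, ?_⟩
    have h2 : ((ν : ℂ) / M) * (2 * Real.pi * Complex.I) = n * (2 * Real.pi * Complex.I) := by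
      rw [← hn]; push_cast; ring
    have h3 := mul_right_cancel₀ hpi h2
    rw [div_eq_iff hM0] at h3
    have h4 : (ν : ℂ) = ((M * n : ℤ) : ℂ) := by rw [h3]; push_cast; ring
    exact_mod_cast h4
  rw [geom_sum_eq hne]
  have h5 : e (ν / M) ^ M = 1 := by
    unfold e
    rw [← Complex.exp_nat_mul, Complex.exp_eq_one_iff]
    refine ⟨ν, ?_⟩
    push_cast
    field_simp
  rw [h5]
  simp

theorem psi_supp {m : ℕ} (τ : Fin m → ℤ) (σ : Fin m → ℝ) {M : ℕ} (hM : 0 < M)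
    (J : Finset (Fin m)) : ∀ ν : ℤ, psiS τ σ M J ν ≠ 0 →
    ∃ ε : Fin m → ℤ, (∀ i, |ε i| ≤ 1) ∧ (M : ℤ) ∣ ν + ∑ i ∈ J, ε i * τ i := by
  classical
  induction J using Finset.induction_on with
  | empty =>
    intro ν hν
    refine ⟨fun _ => 0, fun _ => by simp, ?_⟩
    by_contra hcon
    apply hν
    simp only [Finset.sum_empty, add_zero] at hcon
    unfold psiS
    simp only [Finset.prod_empty, mul_one]
    rw [psi_geom hM ν hcon, mul_zero]
  | insert i J hi ih =>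
    intro ν hν
    have key : ∀ c : ℤ, |c| ≤ 1 → psiS τ σ M J (ν + c * τ i) ≠ 0 →
        ∃ ε : Fin m → ℤ, (∀ i, |ε i| ≤ 1) ∧ (M : ℤ) ∣ ν + ∑ i ∈ insert i J, ε i * τ i := by
      intro c hc h
      obtain ⟨ε, h1, h2⟩ := ih _ h
      refine ⟨Function.update ε i c, ?_, ?_⟩
      · intro j
        rcases eq_or_ne j i with rfl | hj
        · simpa using hc
        · rw [Function.update_of_ne hj]; exact h1 j
      · rw [Finset.sum_insert hi, Function.update_self]
        have h3 : ∑ x ∈ J, Function.update ε i c x * τ x = ∑ x ∈ J, ε x * τ x := by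
          refine Finset.sum_congr rfl fun x hx => ?_
          rw [Function.update_of_ne (ne_of_mem_of_not_mem hx hi)]
        rw [h3, ← add_assoc]
        exact h2
    by_contra hcon
    apply hν
    rw [psi_insert τ σ M J i hi ν]
    have h0 : psiS τ σ M J ν = 0 := by
      by_contra h
      exact hcon (key 0 (by simp) (by simpa using h))
    have h1 : psiS τ σ M J (ν + τ i) = 0 := by
      by_contra h
      exact hcon (key 1 (by simp) (by simpa using h))
    have h2 : psiS τ σ M J (ν + -τ i) = 0 := by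
      by_contra h
      exact hcon (key (-1) (by simp) (by simpa using h))
    rw [h0, h1, h2]
    simp

theorem psi_supp_insert {m : ℕ} (τ : Fin m → ℤ) (σ : Fin m → ℝ) {M : ℕ} (hM : 0 < M)
    (J : Finset (Fin m)) (i : Fin m) (hi : i ∉ J) (ν c : ℤ) (hc : |c| ≤ 1)
    (h : psiS τ σ M J (ν + c * τ i) ≠ 0) :
    ∃ ε : Fin m → ℤ, ε i = c ∧ (∀ i, |ε i| ≤ 1) ∧
      (M : ℤ) ∣ ν + ∑ i ∈ insert i J, ε i * τ i := by
  classical
  obtain ⟨ε, h1, h2⟩ := psi_supp τ σ hM J _ h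
  refine ⟨Function.update ε i c, by simp, ?_, ?_⟩
  · intro j
    rcases eq_or_ne j i with rfl | hj
    · simpa using hc
    · rw [Function.update_of_ne hj]; exact h1 j
  · rw [Finset.sum_insert hi, Function.update_self]
    have h3 : ∑ x ∈ J, Function.update ε i c x * τ x = ∑ x ∈ J, ε x * τ x := by
      refine Finset.sum_congr rfl fun x hx => ?_
      rw [Function.update_of_ne (ne_of_mem_of_not_mem hx hi)]
    rw [h3, ← add_assoc]
    exact h2

theorem psi_unique {m : ℕ} (τ : Fin m → ℤ) (σ : Fin m → ℝ) {M : ℕ}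
    (hM : 2 * ∑ i, |τ i| < M) (hM0 : 0 < M)
    (J : Finset (Fin m)) (i : Fin m) (hi : i ∉ J) (hJ : DissF τ (insert i J)) (ν c c' : ℤ)
    (hc : |c| ≤ 1) (hc' : |c'| ≤ 1)
    (h : psiS τ σ M J (ν + c * τ i) ≠ 0) (h' : psiS τ σ M J (ν + c' * τ i) ≠ 0) : c = c' := by
  classical
  obtain ⟨ε, e1, e2, e3⟩ := psi_supp_insert τ σ hM0 J i hi ν c hc h
  obtain ⟨ε', e1', e2', e3'⟩ := psi_supp_insert τ σ hM0 J i hi ν c' hc' h'
  have hab : ∀ j, |ε j - ε' j| ≤ 2 := fun j => by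
    have := abs_sub (ε j) (ε' j)
    have h1 := e2 j
    have h2 := e2' j
    omega
  have hd : (M : ℤ) ∣ ∑ j ∈ insert i J, (ε j - ε' j) * τ j := by
    have := dvd_sub e3 e3'
    have h2 : ν + ∑ i ∈ insert i J, ε i * τ i - (ν + ∑ i ∈ insert i J, ε' i * τ i) =
        ∑ j ∈ insert i J, (ε j - ε' j) * τ j := by
      simp only [sub_mul, Finset.sum_sub_distrib]
      ring
    rwa [h2] at this
  have hlt : |∑ j ∈ insert i J, (ε j - ε' j) * τ j| < M := by
    refine lt_of_le_of_lt ?_ hM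
    refine (Finset.abs_sum_le_sum_abs _ _).trans ?_
    rw [Finset.mul_sum]
    refine (Finset.sum_le_sum (g := fun j => 2 * |τ j|) fun j _ => ?_).trans
      (Finset.sum_le_sum_of_subset_of_nonneg (Finset.subset_univ _) fun _ _ _ => by positivity)
    rw [abs_mul]
    exact mul_le_mul_of_nonneg_right (hab j) (abs_nonneg _)
  have hz := Int.eq_zero_of_abs_lt_dvd hd hlt
  have h4 := hJ (fun j => ε j - ε' j) (fun j _ => hab j) hz i (Finset.mem_insert_self _ _)
  have h5 : ε i - ε' i = 0 := h4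
  rw [e1, e1'] at h5
  omega

theorem psi_diss_mono {m : ℕ} (τ : Fin m → ℤ) {J J' : Finset (Fin m)} (h : J ⊆ J')
    (hJ : DissF τ J') : DissF τ J := by
  classical
  intro η h1 h2 i hi
  have h3 := hJ (fun j => if j ∈ J then η j else 0) (by
    intro j _
    by_cases hj : j ∈ J
    · simp only [hj, if_true]; exact h1 j hj
    · simp [hj]) (by
    refine Eq.trans ?_ h2
    simp only [ite_mul, zero_mul]
    rw [← Finset.sum_filter]
    refine Finset.sum_congr ?_ fun _ _ => rfl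
    ext j
    simp only [Finset.mem_filter]
    exact ⟨fun h => h.2, fun hj => ⟨h hj, hj⟩⟩) i (h hi)
  simpa [hi] using h3

theorem psi_half {m : ℕ} (σ : Fin m → ℝ) (hσ : ∀ i, σ i = 1 ∨ σ i = -1) (i : Fin m) :
    ‖((σ i : ℂ) * Complex.I / 2)‖ = 1 / 2 := by
  rcases hσ i with h | h <;> simp [h]

theorem psi_diss_bound {m : ℕ} (τ : Fin m → ℤ) (σ : Fin m → ℝ) (hσ : ∀ i, σ i = 1 ∨ σ i = -1)
    {M : ℕ} (hM : 2 * ∑ i, |τ i| < M) (hM0 : 0 < M) (J : Finset (Fin m)) :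
    DissF τ J → ∀ ν : ℤ, ‖psiS τ σ M J ν‖ ≤ 1 := by
  classical
  induction J using Finset.induction_on with
  | empty =>
    intro _ ν
    unfold psiS
    simp only [Finset.prod_empty, mul_one]
    exact psi_prod_norm_le_card hM0 ν
  | insert i J hi ih =>
    intro hJ ν
    have hJ' := psi_diss_mono τ (Finset.subset_insert i J) hJ
    have hb := ih hJ'
    rw [psi_insert τ σ M J i hi ν]
    by_cases h0 : psiS τ σ M J ν = 0
    · rw [h0, zero_add, norm_mul, psi_half σ hσ i]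
      have h1 := norm_add_le (psiS τ σ M J (ν + τ i)) (psiS τ σ M J (ν + -τ i))
      have h2 := hb (ν + τ i)
      have h3 := hb (ν + -τ i)
      linarith
    · have h1 : psiS τ σ M J (ν + τ i) = 0 := by
        by_contra h
        have := psi_unique τ σ hM hM0 J i hi hJ ν 0 1 (by simp) (by simp) (by simpa using h0)
          (by simpa using h)
        omega
      have h2 : psiS τ σ M J (ν + -τ i) = 0 := by
        by_contra h
        have := psi_unique τ σ hM hM0 J i hi hJ ν 0 (-1) (by simp) (by simp) (by simpa using h0)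
          (by simpa using h)
        omega
      rw [h1, h2]
      simpa using hb ν

theorem psi_union_bound {m : ℕ} (τ : Fin m → ℤ) (σ : Fin m → ℝ)
    (hσ : ∀ i, σ i = 1 ∨ σ i = -1) {M : ℕ} (hM : 2 * ∑ i, |τ i| < M) (hM0 : 0 < M)
    (J : Finset (Fin m)) (hJ : DissF τ J) (T : Finset (Fin m)) :
    Disjoint J T → ∀ ν : ℤ, ‖psiS τ σ M (T ∪ J) ν‖ ≤ 2 ^ T.card := by
  classical
  induction T using Finset.induction_on with
  | empty =>
    intro _ ν
    simpa using psi_diss_bound τ σ hσ hM hM0 J hJ ν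
  | insert i T hi ih =>
    intro hd ν
    rw [Finset.disjoint_insert_right] at hd
    have hi' : i ∉ T ∪ J := by
      simp [hi, hd.1]
    have hb := ih hd.2
    rw [Finset.insert_union, psi_insert τ σ M (T ∪ J) i hi' ν, Finset.card_insert_of_notMem hi,
      pow_succ]
    refine (norm_add_le _ _).trans ?_
    rw [norm_mul, psi_half σ hσ i]
    have h1 := norm_add_le (psiS τ σ M (T ∪ J) (ν + τ i)) (psiS τ σ M (T ∪ J) (ν + -τ i))
    have h2 := hb (ν + τ i)
    have h3 := hb (ν + -τ i)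
    have h4 := hb ν
    linarith

theorem psi_bound_aux {m : ℕ} (τ : Fin m → ℤ) (σ : Fin m → ℝ) (hσ : ∀ i, σ i = 1 ∨ σ i = -1)
    (M : ℕ) (hM : 2 * ∑ i, |τ i| < M) (J : Finset (Fin m)) (hJ : DissF τ J) :
    ‖(1 / (M : ℂ)) * ∑ k ∈ Finset.range M, ∏ i, (1 + (σ i : ℂ) * Complex.I *
      (Real.cos (2 * Real.pi * (τ i * ((k : ℝ) / M))) : ℝ))‖ ≤ 2 ^ (m - J.card) := by
  classical
  have hM0 : 0 < M := by
    have h1 : 0 ≤ ∑ i, |τ i| := Finset.sum_nonneg fun _ _ => abs_nonneg _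
    have h2 : (0 : ℤ) < M := by omega
    exact_mod_cast h2
  have h := psi_union_bound τ σ hσ hM hM0 J hJ Jᶜ disjoint_compl_right 0
  rw [Finset.card_compl, Fintype.card_fin] at h
  have h2 : Jᶜ ∪ J = Finset.univ := by
    rw [Finset.union_comm]; exact Finset.union_compl J
  rw [h2] at h
  have h3 : psiS τ σ M Finset.univ 0 = (1 / (M : ℂ)) * ∑ k ∈ Finset.range M, ∏ i,
      (1 + (σ i : ℂ) * Complex.I * (Real.cos (2 * Real.pi * (τ i * ((k : ℝ) / M))) : ℝ)) := by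
    unfold psiS psiFac
    congr 1
    refine Finset.sum_congr rfl fun k _ => ?_
    have : e (((0 : ℤ) : ℝ) * ((k : ℝ) / M)) = 1 := by
      unfold e; simp
    rw [this, one_mul]
  rw [h3] at h
  exact h

theorem psi_bound {m : ℕ} (τ : Fin m → ℤ) (σ : Fin m → ℝ) (hσ : ∀ i, σ i = 1 ∨ σ i = -1)
    (M : ℕ) (hM : 2 * ∑ i, |τ i| < M) :
    ‖(1 / (M : ℂ)) * ∑ k ∈ Finset.range M, ∏ i, (1 + (σ i : ℂ) * Complex.I *
      (Real.cos (2 * Real.pi * (τ i * ((k : ℝ) / M))) : ℝ))‖ ≤ 2 ^ (m - dimF τ) := by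
  classical
  have hne : (Finset.univ.filter (fun J : Finset (Fin m) => DissF τ J)).Nonempty :=
    ⟨∅, by rw [Finset.mem_filter]; exact ⟨Finset.mem_univ _, fun _ _ _ i hi => by simp at hi⟩⟩
  obtain ⟨J, hJ, hJ'⟩ := Finset.exists_mem_eq_sup _ hne Finset.card
  rw [Finset.mem_filter] at hJ
  have h := psi_bound_aux τ σ hσ M hM J hJ.2
  have h1 : dimF τ = J.card := by
    unfold dimF
    rw [← hJ']
  rw [h1]
  exact h

end Pool.Agent.Lib.MP_6d8312_an
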